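import Mathlib

open Finset

namespace Pool.Agent.MPf476d2

theorem kraft_aux (n : ℕ) : ∀ S : Finset (List Bool), (∀ p ∈ S, p.length ≤ n) →
    (∀ p ∈ S, ∀ q ∈ S, p <+: q → p = q) → ∑ p ∈ S, (1 / 2 : ℝ) ^ p.length ≤ 1 := by
  induction n with
  | zero =>
    intro S hS _
    have : S ⊆ {[]} := by
      intro p hp
      have := hS p hp
      simp only [Nat.le_zero, List.length_eq_zero_iff] at this
      simp [this]
    refine (sum_le_sum_of_subset_of_nonneg this (fun _ _ _ => by positivity)).trans ?_
    simp
  | succ n ih =>
    intro S hS hA
    by_cases h0 : [] ∈ S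
    · have : S ⊆ {[]} := by
        intro p hp
        have := hA [] h0 p hp (List.nil_prefix)
        simp [← this]
      refine (sum_le_sum_of_subset_of_nonneg this (fun _ _ _ => by positivity)).trans ?_
      simp
    · classical
      have hinj : ∀ b : Bool, Function.Injective (List.cons b) := fun b => List.cons_injective
      let Sb : Bool → Finset (List Bool) := fun b => S.preimage (List.cons b) (hinj b).injOn
      have hmem : ∀ b p, p ∈ Sb b ↔ b :: p ∈ S := fun b p => by simp [Sb]
      have hb : ∀ b, ∑ p ∈ Sb b, (1 / 2 : ℝ) ^ p.length ≤ 1 := by
        intro b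
        apply ih
        · intro p hp
          have := hS _ ((hmem b p).1 hp)
          simpa using this
        · intro p hp q hq hpq
          have := hA _ ((hmem b p).1 hp) _ ((hmem b q).1 hq) (by simpa using hpq)
          exact hinj b this
      have hS' : S = (Sb true).image (List.cons true) ∪ (Sb false).image (List.cons false) := by
        ext p
        simp only [mem_union, mem_image, hmem]
        constructor
        · intro hp
          cases p with
          | nil => exact absurd hp h0
          | cons b p => cases b
                        · exact Or.inr ⟨p, hp, rfl⟩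
                        · exact Or.inl ⟨p, hp, rfl⟩
        · rintro (⟨q, hq, rfl⟩ | ⟨q, hq, rfl⟩) <;> exact hq
      have hd : Disjoint ((Sb true).image (List.cons true)) ((Sb false).image (List.cons false)) := by
        rw [Finset.disjoint_left]
        intro p hp hq
        simp only [mem_image] at hp hq
        obtain ⟨a, _, rfl⟩ := hp
        obtain ⟨b, _, hb⟩ := hq
        simp at hb
      rw [hS', sum_union hd, sum_image (fun _ _ _ _ h => hinj _ h),
        sum_image (fun _ _ _ _ h => hinj _ h)]
      simp only [List.length_cons, pow_succ]
      rw [← sum_mul, ← sum_mul]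
      have h1 := hb true
      have h2 := hb false
      linarith

theorem kraft (S : Finset (List Bool)) (h : ∀ p ∈ S, ∀ q ∈ S, p <+: q → p = q) :
    ∑ p ∈ S, (1 / 2 : ℝ) ^ p.length ≤ 1 :=
  kraft_aux (S.sup List.length) S (fun _ hp => Finset.le_sup (f := List.length) hp) h

end Pool.Agent.MPf476d2
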