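import Pool.Agent.MPf476d2.Process

open Finset Encodable

namespace Pool.Agent.MPf476d2

namespace Env

theorem foldl_val (q : List Bool) : ∀ a : ℕ,
    q.foldl (fun acc b => 2 * acc + cond b 1 0) a = a * 2 ^ q.length + val q := by
  induction q with
  | nil => intro a; simp [val]
  | cons b q ih =>
    intro a
    have h1 : val (b :: q) = q.foldl (fun acc b => 2 * acc + cond b 1 0) (cond b 1 0) := by
      simp [val]
    rw [List.foldl_cons, ih, h1, ih]
    simp only [List.length_cons, pow_succ]
    ring

theorem val_cons (b : Bool) (q : List Bool) : val (b :: q) = cond b 1 0 * 2 ^ q.length + val q := by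
  have h1 : val (b :: q) = q.foldl (fun acc b => 2 * acc + cond b 1 0) (cond b 1 0) := by
    simp [val]
  rw [h1, foldl_val]

theorem val_nil : val [] = 0 := rfl

theorem val_lt (q : List Bool) : val q < 2 ^ q.length := by
  induction q with
  | nil => simp [val_nil]
  | cons b q ih =>
    rw [val_cons, List.length_cons, pow_succ]
    cases b <;> simp <;> omega

theorem val_append (q r : List Bool) : val (q ++ r) = val q * 2 ^ r.length + val r := by
  induction q with
  | nil => simp [val_nil]
  | cons b q ih =>
    rw [List.cons_append, val_cons, val_cons, ih, List.length_append, pow_add]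
    ring

theorem val_inj : ∀ {q r : List Bool}, q.length = r.length → val q = val r → q = r := by
  intro q
  induction q with
  | nil => intro r h _; cases r with
    | nil => rfl
    | cons _ _ => simp at h
  | cons b q ih =>
    intro r h hv
    cases r with
    | nil => simp at h
    | cons c r =>
      simp only [List.length_cons, add_left_inj] at h
      rw [val_cons, val_cons, h] at hv
      have h1 := val_lt q
      have h2 := val_lt r
      rw [h] at h1
      have hbc : b = c := by
        cases b <;> cases c <;> simp at hv ⊢ <;> omega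
      subst hbc
      have : q = r := ih h (by omega)
      rw [this]

theorem exists_val (n k : ℕ) (h : k < 2 ^ n) : ∃ q : List Bool, q.length = n ∧ val q = k := by
  induction n generalizing k with
  | zero => exact ⟨[], rfl, by simp at h; simp [val_nil, h]⟩
  | succ n ih =>
    rw [pow_succ] at h
    rcases Nat.lt_or_ge k (2 ^ n) with h' | h'
    · obtain ⟨q, hq, hv⟩ := ih k h'
      exact ⟨false :: q, by simp [hq], by simp [val_cons, hv]⟩
    · obtain ⟨q, hq, hv⟩ := ih (k - 2 ^ n) (by omega)
      exact ⟨true :: q, by simp [hq], by simp [val_cons, hq, hv]; omega⟩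

variable (e : Env)

/-- numerator of the total payment at scale `2 ^ s` -/
noncomputable def Pn (N s : ℕ) : ℕ := (e.St N s).2.2

theorem St_succ (N s : ℕ) : e.St N (s + 1) = e.stepS N s (e.St N s) := rfl

theorem St_zero (N : ℕ) : e.St N 0 = (rep 0 (dN N), 0, 0) := rfl

theorem Pn_even (N s : ℕ) : ∃ k, e.Pn N (s + 1) = 2 * k ∧ e.Pn N s ≤ k := by
  unfold Pn
  rw [St_succ]
  unfold stepS
  cases e.actB N s (e.St N s)
  · exact ⟨_, rfl, le_rfl⟩
  · refine ⟨_, rfl, ?_⟩
    unfold newP
    split_ifs
    · exact le_rfl
    · exact Nat.le_add_right _ _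

theorem Pn_mono (N s k : ℕ) : e.Pn N s * 2 ^ k ≤ e.Pn N (s + k) := by
  induction k with
  | zero => simp
  | succ k ih =>
    obtain ⟨j, hj, hj2⟩ := e.Pn_even N (s + k)
    rw [← add_assoc, hj, pow_succ]
    nlinarith

/-- strings in the domain of the adversary form an antichain -/
theorem dom_antichain (N : ℕ) (q r : List Bool) (h1 : e.domB N q = true)
    (h2 : e.domB N (q ++ r) = true) : r = [] := by
  by_contra hr
  have hlen : 0 < r.length := List.length_pos_iff.2 hr
  simp only [domB, decide_eq_true_eq] at h1 h2
  obtain ⟨a1, a2⟩ := h1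
  obtain ⟨b1, b2⟩ := h2
  obtain ⟨k, hk, hk2⟩ := e.Pn_even N q.length
  have e1 : (e.St N (q.length + 1)).2.2 = e.Pn N (q.length + 1) := rfl
  have e2 : (e.St N (q ++ r).length).2.2 = e.Pn N (q ++ r).length := rfl
  rw [e1, hk] at a2
  rw [e2] at b1
  have a3 : val q + 1 ≤ k * 2 ^ wN N := by nlinarith
  have hm := e.Pn_mono N (q.length + 1) (r.length - 1)
  have e3 : q.length + 1 + (r.length - 1) = (q ++ r).length := by
    rw [List.length_append]; omega
  rw [e3, hk] at hm
  have hv := val_lt r
  rw [val_append] at b1
  have e4 : 2 ^ r.length = 2 * 2 ^ (r.length - 1) := by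
    rw [← pow_succ']; congr 1; omega
  have h5 : (val q + 1) * 2 ^ r.length ≤ k * 2 ^ wN N * 2 ^ r.length :=
    Nat.mul_le_mul_right _ a3
  have h6 : k * 2 ^ wN N * 2 ^ r.length = (2 * k * 2 ^ (r.length - 1)) * 2 ^ wN N := by
    rw [e4]; ring
  have h7 : (2 * k * 2 ^ (r.length - 1)) * 2 ^ wN N ≤ e.Pn N (q ++ r).length * 2 ^ wN N :=
    Nat.mul_le_mul_right _ hm
  have h8 : (val q + 1) * 2 ^ r.length = val q * 2 ^ r.length + 2 ^ r.length := by ring
  omega

theorem machine_dom (x0 x : List Bool) : (e.machine x0 x).Dom ↔
    x.findIdx id < x.length ∧ e.domB (x.findIdx id) (x.drop (x.findIdx id + 1)) = true := by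
  unfold machine
  split_ifs with h
  · exact iff_of_true (by simp) h
  · exact iff_of_false (by simp) h

theorem rep_eq {α : Type*} (x : α) (n : ℕ) : rep x n = List.replicate n x := by
  unfold rep
  apply List.ext_getElem
  · simp
  · intro i h1 h2; simp

theorem findIdx_code (N : ℕ) (q : List Bool) :
    (List.replicate N false ++ ([true] ++ q)).findIdx id = N := by
  induction N with
  | zero => simp [List.findIdx_cons]
  | succ N ih => rw [List.replicate_succ, List.cons_append, List.findIdx_cons, ih]; simp

theorem machine_isMachine (x0 : List Bool) : IsMachine (e.machine x0) := by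
  refine ⟨e.machine_partrec x0, ?_⟩
  intro x y hx hy hxy
  rw [machine_dom] at hx hy
  obtain ⟨r, rfl⟩ := hxy
  obtain ⟨hx1, hx2⟩ := hx
  obtain ⟨hy1, hy2⟩ := hy
  have hidx : (x ++ r).findIdx id = x.findIdx id := by
    rw [List.findIdx_append]
    simp [hx1]
  rw [hidx] at hy2
  have hdrop : (x ++ r).drop (x.findIdx id + 1) = x.drop (x.findIdx id + 1) ++ r := by
    rw [List.drop_append_of_le_length (by omega)]
  rw [hdrop] at hy2
  have := e.dom_antichain _ _ _ hx2 hy2
  rw [this, List.append_nil]

theorem machine_code (x0 : List Bool) (N : ℕ) (q : List Bool) :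
    e.machine x0 (rep false N ++ ([true] ++ q)) =
      ((if e.domB N q = true then some x0 else none : Option (List Bool)) :
        Part (List Bool)) := by
  unfold machine
  rw [rep_eq, findIdx_code]
  have h1 : N < (List.replicate N false ++ ([true] ++ q)).length := by simp
  have h2 : (List.replicate N false ++ ([true] ++ q)).drop (N + 1) = q := by
    rw [List.drop_append]
    simp
  rw [h2]
  simp only [h1, true_and]

end Env

end Pool.Agent.MPf476d2
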