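import Pool.Agent.MPf476d2.Limit
import Pool.Agent.MPf476d2.Val
import Pool.Agent.MPf476d2.Kraft

open MeasureTheory Finset Encodable

namespace Pool.Agent.MPf476d2

/-- The enumerations in `e` describe `U`, `X` and `V`, and `N` codes the place of the
adversary inside `U`. -/
structure Good (e : Env) (N : ℕ) (U : List Bool →. List Bool) (X : Set (List Bool))
    (V : ℕ → ℕ × ℕ × ℕ → Prop) (x0 : List Bool) : Prop where
  hUm : IsMachine U
  b1 : ∀ n p x, e.bU n = some (p, x) → x ∈ U p ∧ p.length ≤ n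
  b2 : ∀ p x, x ∈ U p → ∃ n, e.bU n = some (p, x)
  b3 : ∀ n m p x y, e.bU n = some (p, x) → e.bU m = some (p, y) → n = m
  w1 : ∀ x, x ∉ X ↔ ∃ t, e.dW t = some x
  t1 : ∀ c i, V c i ↔ ∃ t, e.tV t = some (c, i)
  tv : ∀ c, volume (openSet V c) ≤ ENNReal.ofReal ((1 / 2 : ℝ) ^ c)
  hx0 : x0 ∈ X
  hU : ∀ q, U (Env.pre N ++ q) =
    ((if e.domB N q = true then some x0 else none : Option (List Bool)) : Part (List Bool))

namespace Good

variable {e : Env} {N : ℕ} {U : List Bool →. List Bool} {X : Set (List Bool)}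
  {V : ℕ → ℕ × ℕ × ℕ → Prop} {x0 : List Bool} (g : Good e N U X V x0)

noncomputable def mass (e : Env) (u : ℕ) : ℝ :=
  (e.bU u).elim 0 (fun z => (1 / 2 : ℝ) ^ z.1.length)

def VS (e : Env) (c s : ℕ) : Set ℝ :=
  {y | ∃ t < s + 1, ∃ z, e.tV t = some z ∧ z.1 = c ∧ z.2.2.1 ≤ s ∧ z.2.2.2 ≤ s ∧ y ∈ ball z.2}

noncomputable def TT (e : Env) (N s i : ℕ) : ℕ :=
  if i < Env.dN N then (e.St N s).1.getD i 0 else (e.St N s).2.1

lemma mass_nonneg (u : ℕ) : 0 ≤ mass e u := by
  unfold mass
  cases e.bU u with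
  | none => simp
  | some z => simp

lemma deadB_iff (x : List Bool) (s : ℕ) : e.deadB x s = true ↔ ∃ t < s + 1, e.dW t = some x := by
  simp [Env.deadB]

lemma deadU_iff (u s : ℕ) : e.deadU u s = true ↔ ∃ z, e.bU u = some z ∧ e.deadB z.2 s = true := by
  unfold Env.deadU
  cases e.bU u with
  | none => simp
  | some z => simp

lemma oppU_iff (u : ℕ) : e.oppU N u = true ↔
    ∃ z, e.bU u = some z ∧ z.1.take (Env.wN N) = Env.pre N := by
  unfold Env.oppU
  cases e.bU u with
  | none => simp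
  | some z => simp

include g in
lemma mass_sum (n : ℕ) : ∑ u ∈ range n, mass e u ≤ 1 := by
  classical
  -- units that are born
  let f : ℕ → List Bool := fun u => (e.bU u).elim [] (fun z => z.1)
  let B := (range n).filter (fun u => (e.bU u).isSome)
  have h1 : ∑ u ∈ range n, mass e u = ∑ u ∈ B, mass e u := by
    symm
    apply sum_subset (filter_subset _ _)
    intro u hu hu'
    simp only [mem_filter, not_and] at hu'
    have := hu' hu
    unfold mass
    cases h : e.bU u with
    | none => simp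
    | some z => rw [h] at this; simp at this
  have hinj : Set.InjOn f B := by
    intro u hu w hw huw
    simp only [B, coe_filter, Set.mem_ofPred_eq] at hu hw
    obtain ⟨z, hz⟩ := Option.isSome_iff_exists.1 hu.2
    obtain ⟨z', hz'⟩ := Option.isSome_iff_exists.1 hw.2
    simp only [f, hz, hz', Option.elim_some] at huw
    apply g.b3 u w z.1 z.2 z'.2
    · rw [hz]
    · rw [hz', huw]
  have h2 : ∑ u ∈ B, mass e u = ∑ p ∈ B.image f, (1 / 2 : ℝ) ^ p.length := by
    rw [sum_image hinj]
    apply sum_congr rfl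
    intro u hu
    simp only [B, mem_filter] at hu
    obtain ⟨z, hz⟩ := Option.isSome_iff_exists.1 hu.2
    simp [mass, f, hz]
  rw [h1, h2]
  apply kraft
  have hdom : ∀ p ∈ B.image f, (U p).Dom := by
    intro p hp
    simp only [mem_image, B, mem_filter] at hp
    obtain ⟨u, ⟨-, hu⟩, rfl⟩ := hp
    obtain ⟨z, hz⟩ := Option.isSome_iff_exists.1 hu
    have := (g.b1 u z.1 z.2 (by rw [hz])).1
    simp only [f, hz, Option.elim_some]
    exact Part.dom_iff_mem.2 ⟨_, this⟩
  intro p hp q hq
  exact g.hUm.2 p q (hdom p hp) (hdom q hq)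

lemma dead_mono (u s t : ℕ) (hst : s ≤ t) (h : e.deadU u s = true) : e.deadU u t = true := by
  rw [deadU_iff] at h ⊢
  obtain ⟨z, hz, hz2⟩ := h
  refine ⟨z, hz, ?_⟩
  rw [deadB_iff] at hz2 ⊢
  obtain ⟨k, hk, hk2⟩ := hz2
  exact ⟨k, by omega, hk2⟩

include g in
/-- the programs of the adversary that have appeared -/
lemma opp_spec (u : ℕ) (h : e.oppU N u = true) :
    ∃ q, e.bU u = some (Env.pre N ++ q, x0) ∧ e.domB N q = true := by
  rw [oppU_iff] at h
  obtain ⟨z, hz, hz2⟩ := h
  have hp : z.1 = Env.pre N ++ z.1.drop (Env.wN N) := by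
    conv_lhs => rw [← List.take_append_drop (Env.wN N) z.1, hz2]
  have hx := (g.b1 u z.1 z.2 (by rw [hz])).1
  rw [hp, g.hU] at hx
  refine ⟨z.1.drop (Env.wN N), ?_⟩
  by_cases hd : e.domB N (z.1.drop (Env.wN N)) = true
  · rw [if_pos hd] at hx
    simp only [Part.coe_some, Part.mem_some_iff] at hx
    refine ⟨?_, hd⟩
    rw [hz, ← hp, ← hx]
  · rw [if_neg hd] at hx
    simp at hx

include g in
lemma opp_alive (u s : ℕ) (h : e.oppU N u = true) : ¬ e.deadU u s = true := by
  obtain ⟨q, hq, -⟩ := g.opp_spec u h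
  rw [deadU_iff]
  rintro ⟨z, hz, hz2⟩
  rw [hq] at hz
  cases hz
  rw [deadB_iff] at hz2
  obtain ⟨t, -, ht⟩ := hz2
  exact (g.w1 x0).2 ⟨t, ht⟩ g.hx0

lemma VS_mono (c s t : ℕ) (h : s ≤ t) : VS e c s ⊆ VS e c t := by
  rintro y ⟨k, hk, z, h1, h2, h3, h4, h5⟩
  exact ⟨k, by omega, z, h1, h2, by omega, by omega, h5⟩

lemma VS_open (c s : ℕ) : IsOpen (VS e c s) := by
  have : VS e c s = ⋃ t ∈ {t | t < s + 1}, ⋃ z ∈ {z | e.tV t = some z ∧ z.1 = c ∧
      z.2.2.1 ≤ s ∧ z.2.2.2 ≤ s}, ball z.2 := by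
    ext y
    simp only [VS, Set.mem_ofPred_eq, Set.mem_iUnion, exists_prop, and_assoc]
  rw [this]
  refine isOpen_biUnion fun t _ => isOpen_biUnion fun z _ => Metric.isOpen_ball

include g in
lemma VS_sub (c s : ℕ) : VS e c s ⊆ openSet V c := by
  rintro y ⟨k, hk, z, h1, h2, h3, h4, h5⟩
  unfold openSet
  simp only [Set.mem_iUnion, Set.mem_ofPred_eq, exists_prop]
  refine ⟨z.2, ?_, h5⟩
  rw [g.t1]
  refine ⟨k, ?_⟩
  rw [h1, ← h2]

/-- the bookkeeping structure of the process -/
noncomputable def core : Core where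
  μ := mass e
  dead := fun u s => e.deadU u s = true
  opp := fun u => e.oppU N u = true
  VS := VS e
  P := fun s => (e.Pn N s : ℝ) / 2 ^ s
  T := TT e N
  act := fun s => e.actB N s (e.St N s) = true
  d := Env.dN N
  q := Env.qN N
  μ_nonneg := mass_nonneg
  μ_sum := g.mass_sum
  dead_mono := dead_mono
  opp_alive := g.opp_alive
  VS_mono := VS_mono
  VS_meas := fun c s => (VS_open c s).measurableSet
  VS_vol := fun c s => (measure_mono (g.VS_sub c s)).trans (g.tv c)

include g in
lemma v_eq (s : ℕ) : g.core.v s = (e.A s : ℝ) / 2 ^ s := by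
  unfold Core.v Env.A
  push_cast
  rw [sum_div]
  apply sum_congr rfl
  intro u hu
  have hus : u ≤ s := by simp at hu; omega
  have hite : ∀ (i : Decidable (g.core.dead u s)),
      (@ite ℝ (g.core.dead u s) i 0 (g.core.μ u)) = if e.deadU u s = true then 0 else mass e u := by
    intro i
    by_cases h : e.deadU u s = true
    · rw [if_pos h]; exact if_pos h
    · rw [if_neg h]; exact if_neg h
  rw [hite]
  unfold Env.deadU Env.um mass
  cases h : e.bU u with
  | none => simp
  | some z =>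
    have hl := (g.b1 u z.1 z.2 (by rw [h])).2
    cases hd : e.deadB z.2 s
    · simp only [hd, Bool.false_eq_true, if_false, Option.elim_some, cond_false]
      push_cast
      rw [pow_sub₀ (2 : ℝ) (by norm_num) (by omega : z.1.length ≤ s)]
      field_simp
      rw [← mul_pow]; norm_num
    · simp [hd]

include g in
lemma R_eq (s : ℕ) : g.core.R s = (e.Rn N s : ℝ) / 2 ^ s := by
  unfold Core.R Env.Rn
  push_cast
  rw [sum_div]
  apply sum_congr rfl
  intro u hu
  have hus : u ≤ s := by simp at hu; omega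
  have hite : ∀ (i : Decidable (g.core.opp u)),
      (@ite ℝ (g.core.opp u) i (g.core.μ u) 0) = if e.oppU N u = true then mass e u else 0 := by
    intro i
    by_cases h : e.oppU N u = true
    · rw [if_pos h]; exact if_pos h
    · rw [if_neg h]; exact if_neg h
  rw [hite]
  unfold Env.oppU Env.rm mass
  cases h : e.bU u with
  | none => simp
  | some z =>
    have hl := (g.b1 u z.1 z.2 (by rw [h])).2
    by_cases hd : z.1.take (Env.wN N) = Env.pre N
    · simp only [hd, decide_true, if_true, Option.elim_some, cond_true]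
      push_cast
      rw [pow_sub₀ (2 : ℝ) (by norm_num) (by omega : z.1.length ≤ s)]
      field_simp
      rw [← mul_pow]; norm_num
    · simp [hd]

end Good

end Pool.Agent.MPf476d2
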