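import Mathlib

/-!
Abstract bookkeeping behind the randomness of restricted halting probabilities.
Time is `ℕ`.  At stage `u` a unit of mass `μ u` may be born; it dies when its output is
enumerated into the complement of `X`.  An adversary (`act`, `P`, `T`) reacts.
-/

open MeasureTheory Finset

namespace Pool.Agent.MPf476d2

structure Core where
  μ : ℕ → ℝ
  dead : ℕ → ℕ → Prop
  opp : ℕ → Prop
  VS : ℕ → ℕ → Set ℝ
  P : ℕ → ℝ
  T : ℕ → ℕ → ℕ
  act : ℕ → Prop
  d : ℕ
  q : ℕ
  μ_nonneg : ∀ u, 0 ≤ μ u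
  μ_sum : ∀ n, ∑ u ∈ range n, μ u ≤ 1
  dead_mono : ∀ u s t, s ≤ t → dead u s → dead u t
  opp_alive : ∀ u s, opp u → ¬ dead u s
  VS_mono : ∀ c s t, s ≤ t → VS c s ⊆ VS c t
  VS_meas : ∀ c s, MeasurableSet (VS c s)
  VS_vol : ∀ c s, volume (VS c s) ≤ ENNReal.ofReal ((1 / 2 : ℝ) ^ c)

namespace Core

variable (K : Core)

open scoped Classical in
noncomputable def v (s : ℕ) : ℝ := ∑ u ∈ range (s + 1), if K.dead u s then 0 else K.μ u

open scoped Classical in
noncomputable def R (s : ℕ) : ℝ := ∑ u ∈ range (s + 1), if K.opp u then K.μ u else 0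

open scoped Classical in
/-- mass of the units born in `(m, n]` that are dead at `n` -/
noncomputable def L (m n : ℕ) : ℝ := ∑ u ∈ Ioc m n, if K.dead u n then K.μ u else 0

open scoped Classical in
/-- mass of the units born in `(m, b]`, alive at `b`, dead at `n` -/
noncomputable def Mid (m b n : ℕ) : ℝ :=
  ∑ u ∈ Ioc m b, if (¬ K.dead u b ∧ K.dead u n) then K.μ u else 0

open scoped Classical in
/-- mass of all units alive at `b`, dead at `n` -/
noncomputable def Dold (b n : ℕ) : ℝ :=
  ∑ u ∈ range (b + 1), if (¬ K.dead u b ∧ K.dead u n) then K.μ u else 0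

open scoped Classical in
/-- number of units born by stage `m`, alive at `m`, dead at `n` -/
noncomputable def anc (m n : ℕ) : ℕ := #{u ∈ range (m + 1) | ¬ K.dead u m ∧ K.dead u n}

noncomputable def G (c s : ℕ) (y : ℝ) : ℝ := volume.real (K.VS c s ∩ Set.Iio y)

noncomputable def err (m : ℕ) : ℝ := (m + 2) * (1 / 2 : ℝ) ^ (m + K.q)

lemma err_nonneg (m : ℕ) : 0 ≤ K.err m := by
  unfold err; positivity

/-! ### the measure function -/

lemma VS_fin (c s : ℕ) (A : Set ℝ) : volume (K.VS c s ∩ A) ≠ ⊤ := by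
  refine ne_top_of_le_ne_top ?_ (measure_mono Set.inter_subset_left)
  exact ne_top_of_le_ne_top ENNReal.ofReal_ne_top (K.VS_vol c s)

lemma G_nonneg (c s : ℕ) (y : ℝ) : 0 ≤ K.G c s y := measureReal_nonneg

lemma G_le (c s : ℕ) (y : ℝ) : K.G c s y ≤ (1 / 2 : ℝ) ^ c := by
  unfold G Measure.real
  have h1 : volume (K.VS c s ∩ Set.Iio y) ≤ ENNReal.ofReal ((1 / 2 : ℝ) ^ c) :=
    (measure_mono Set.inter_subset_left).trans (K.VS_vol c s)
  have := ENNReal.toReal_mono ENNReal.ofReal_ne_top h1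
  rwa [ENNReal.toReal_ofReal (by positivity)] at this

lemma G_mono (c : ℕ) {s t : ℕ} (h : s ≤ t) {y z : ℝ} (hyz : y ≤ z) : K.G c s y ≤ K.G c t z := by
  unfold G
  apply measureReal_mono _ (K.VS_fin c t _)
  exact Set.inter_subset_inter (K.VS_mono c s t h) (Set.Iio_subset_Iio hyz)

lemma G_add (c s : ℕ) {y z : ℝ} (hyz : y ≤ z) (h : Set.Ioo y z ⊆ K.VS c s) :
    K.G c s y + (z - y) ≤ K.G c s z := by
  unfold G
  have hd : Disjoint (K.VS c s ∩ Set.Iio y) (Set.Ioo y z) := by
    rw [Set.disjoint_left]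
    rintro x ⟨-, hx⟩ ⟨hx', -⟩
    exact absurd hx (not_lt.2 hx'.le)
  have hfin : volume (Set.Ioo y z) ≠ ⊤ := by simp
  have e : volume.real (Set.Ioo y z) = z - y := by
    simp [Measure.real, Real.volume_Ioo, ENNReal.toReal_ofReal (sub_nonneg.2 hyz)]
  rw [← e, ← measureReal_union hd measurableSet_Ioo (K.VS_fin c s _) hfin]
  apply measureReal_mono _ (K.VS_fin c s _)
  apply Set.union_subset
  · exact Set.inter_subset_inter_right _ (Set.Iio_subset_Iio hyz)
  · exact Set.subset_inter h (fun x hx => hx.2)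

lemma G_lip (c s : ℕ) {y z : ℝ} (hyz : y ≤ z) : K.G c s z ≤ K.G c s y + (z - y) := by
  unfold G
  have hfin : volume (Set.Ico y z) ≠ ⊤ := by simp
  have e : volume.real (Set.Ico y z) = z - y := by
    simp [Measure.real, Real.volume_Ico, ENNReal.toReal_ofReal (sub_nonneg.2 hyz)]
  rw [← e]
  refine le_trans (measureReal_mono ?_ ?_) (measureReal_union_le _ _)
  · rintro x ⟨hx1, hx2⟩
    rcases lt_or_ge x y with h | h
    · exact Or.inl ⟨hx1, h⟩
    · exact Or.inr ⟨h, hx2⟩
  · exact (measure_union_lt_top (lt_top_iff_ne_top.2 (K.VS_fin c s _))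
      (lt_top_iff_ne_top.2 hfin)).ne

lemma G_move (c : ℕ) {s t : ℕ} (hst : s ≤ t) {y z : ℝ}
    (h : y ≤ z → Set.Ioo y z ⊆ K.VS c t) : K.G c s y + (z - y) ≤ K.G c t z := by
  rcases le_total y z with hyz | hyz
  · have := K.G_add c t hyz (h hyz)
    have h2 := K.G_mono c hst (le_refl y)
    linarith
  · have := K.G_lip c t hyz
    have h2 := K.G_mono c hst (le_refl y)
    linarith

/-! ### mass identities -/

lemma L_nonneg (m n : ℕ) : 0 ≤ K.L m n := by
  unfold L; apply sum_nonneg; intro u _; split_ifs; exacts [K.μ_nonneg u, le_rfl]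

lemma Mid_nonneg (m b n : ℕ) : 0 ≤ K.Mid m b n := by
  unfold Mid; apply sum_nonneg; intro u _; split_ifs; exacts [K.μ_nonneg u, le_rfl]

lemma L_self (m : ℕ) : K.L m m = 0 := by simp [L]

lemma L_le_one (m n : ℕ) : K.L m n ≤ 1 := by
  classical
  refine le_trans ?_ (K.μ_sum (n + 1))
  unfold L
  refine le_trans (sum_le_sum (g := K.μ) ?_) (sum_le_sum_of_subset_of_nonneg ?_ ?_)
  · intro u _; split_ifs; exacts [le_rfl, K.μ_nonneg u]
  · intro u hu; simp at hu ⊢; omega
  · intro u _ _; exact K.μ_nonneg u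

lemma L_split {m b n : ℕ} (h1 : m ≤ b) (h2 : b ≤ n) :
    K.L m n = K.L m b + K.Mid m b n + K.L b n := by
  classical
  unfold L Mid
  have : Ioc m n = Ioc m b ∪ Ioc b n := (Finset.Ioc_union_Ioc_eq_Ioc h1 h2).symm
  have hd : Disjoint (Ioc m b) (Ioc b n) := by
    rw [Finset.disjoint_left]; intro u hu hu'; simp at hu hu'; omega
  rw [this, sum_union hd, ← sum_add_distrib]
  congr 1
  apply sum_congr rfl
  intro u _
  by_cases hb : K.dead u b
  · have hn := K.dead_mono u b n h2 hb
    simp [hb, hn]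
  · by_cases hn : K.dead u n <;> simp [hb, hn]

lemma Mid_mono {m b n n' : ℕ} (h : n ≤ n') : K.Mid m b n ≤ K.Mid m b n' := by
  classical
  unfold Mid
  apply sum_le_sum
  intro u _
  by_cases hb : K.dead u b
  · simp [hb]
  · by_cases hn : K.dead u n
    · have := K.dead_mono u n n' h hn
      simp [hb, hn, this]
    · simp only [hb, hn, not_false_eq_true, and_false, if_false, true_and]
      split_ifs; exacts [K.μ_nonneg u, le_rfl]

lemma Dold_eq_Mid {m b n : ℕ} (h : ∀ u ≤ m, K.dead u n → K.dead u b) :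
    K.Dold b n = K.Mid m b n := by
  classical
  unfold Dold Mid
  have hs : Ioc m b ⊆ range (b + 1) := by intro u hu; simp at hu ⊢; omega
  rw [← sum_subset hs]
  intro u hu hu'
  have : u ≤ m := by simp at hu hu'; omega
  have := h u this
  by_cases hb : K.dead u b
  · simp [hb]
  · have hn : ¬ K.dead u n := fun hn => hb (this hn)
    simp [hn]

/-- the value moves up at least by the payment minus the dying old mass -/
lemma v_diff {b n : ℕ} (h : b ≤ n) :
    K.R n - K.R b - K.Dold b n ≤ K.v n - K.v b := by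
  classical
  unfold R v Dold
  have hs : range (b + 1) ⊆ range (n + 1) := by intro u hu; simp at hu ⊢; omega
  rw [← sum_sdiff hs (f := fun u => if K.opp u then K.μ u else 0),
    ← sum_sdiff hs (f := fun u => if K.dead u n then 0 else K.μ u)]
  have h1 : ∑ u ∈ range (n + 1) \ range (b + 1), (if K.opp u then K.μ u else 0) ≤
      ∑ u ∈ range (n + 1) \ range (b + 1), (if K.dead u n then 0 else K.μ u) := by
    apply sum_le_sum
    intro u _
    by_cases ho : K.opp u
    · have := K.opp_alive u n ho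
      simp [ho, this]
    · simp only [ho, if_false]
      split_ifs; exacts [le_rfl, K.μ_nonneg u]
  have h2 : ∑ u ∈ range (b + 1), (if K.dead u n then 0 else K.μ u) =
      ∑ u ∈ range (b + 1), (if K.dead u b then 0 else K.μ u) -
      ∑ u ∈ range (b + 1), (if (¬ K.dead u b ∧ K.dead u n) then K.μ u else 0) := by
    rw [← sum_sub_distrib]
    apply sum_congr rfl
    intro u _
    by_cases hb : K.dead u b
    · have hn := K.dead_mono u b n h hb
      simp [hb, hn]
    · by_cases hn : K.dead u n <;> simp [hb, hn]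
  linarith

lemma anc_self (m : ℕ) : K.anc m m = 0 := by
  classical
  unfold anc
  rw [card_eq_zero, filter_eq_empty_iff]
  rintro u _ ⟨h1, h2⟩
  exact h1 h2

lemma anc_le (m n : ℕ) : K.anc m n ≤ m + 1 := by
  classical
  unfold anc
  exact (card_filter_le _ _).trans (by simp)

lemma anc_mono {m b n : ℕ} (h : b ≤ n) : K.anc m b ≤ K.anc m n := by
  classical
  unfold anc
  apply card_le_card
  intro u hu
  simp only [mem_filter] at hu ⊢
  exact ⟨hu.1, hu.2.1, K.dead_mono u b n h hu.2.2⟩

lemma anc_lt {m b n : ℕ} (hmb : m ≤ b) (h : b ≤ n) (u : ℕ) (hu : u ≤ m)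
    (h1 : ¬ K.dead u b) (h2 : K.dead u n) : K.anc m b + 1 ≤ K.anc m n := by
  classical
  unfold anc
  rw [Nat.add_one_le_iff]
  apply card_lt_card
  rw [ssubset_iff_of_subset]
  · refine ⟨u, ?_, ?_⟩
    · simp only [mem_filter, mem_range]
      exact ⟨by omega, fun h' => h1 (K.dead_mono u m b hmb h'), h2⟩
    · simp only [mem_filter, mem_range, not_and]
      intro _ _
      exact h1
  · intro w hw
    simp only [mem_filter] at hw ⊢
    exact ⟨hw.1, hw.2.1, K.dead_mono w b n h hw.2.2⟩

end Core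

end Pool.Agent.MPf476d2
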