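import Mathlib

open MeasureTheory

namespace Pool.Agent.MPf476d2

/-- A machine: a partial computable map from binary strings to binary strings whose domain
is an antichain for the initial-segment order (a self-delimiting machine). -/
def IsMachine (M : List Bool →. List Bool) : Prop :=
  Partrec M ∧ ∀ p q : List Bool, (M p).Dom → (M q).Dom → p <+: q → p = q

/-- `U` is universal by adjunction: `U` is a machine and there are an enumeration `M 0, M 1, ...`
of all machines and a computable antichain of codes `σ 0, σ 1, ...` such that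
`U (σ e ++ p) = M e p` for all `e` and `p`. -/
def UniversalByAdjunction (U : List Bool →. List Bool) : Prop :=
  IsMachine U ∧ ∃ (M : ℕ → List Bool →. List Bool) (σ : ℕ → List Bool),
    (∀ e, IsMachine (M e)) ∧ (∀ N, IsMachine N → ∃ e, M e = N) ∧
    Computable σ ∧ (∀ e e', σ e <+: σ e' → e = e') ∧ ∀ e p, U (σ e ++ p) = M e p

/-- `X` is co-c.e.: its complement is recursively enumerable. -/
def CoCE (X : Set (List Bool)) : Prop := REPred fun x => x ∉ X

/-- The restricted halting probability: the sum of `2 ^ (-|p|)` over all `p` such that `U p` is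
defined with value in `X`. -/
noncomputable def Omega (U : List Bool →. List Bool) (X : Set (List Bool)) : ℝ :=
  ∑' p : List Bool, Set.indicator {p | ∃ x ∈ X, x ∈ U p} (fun p => (1 / 2 : ℝ) ^ p.length) p

/-- The open interval with centre `a / 2 ^ k` and radius `2 ^ (-m)`, where `i = (a, k, m)`. -/
noncomputable def ball (i : ℕ × ℕ × ℕ) : Set ℝ :=
  Metric.ball ((i.1 : ℝ) / 2 ^ i.2.1) ((1 / 2 : ℝ) ^ i.2.2)

/-- The open set coded by the `n`-th section of `V`. -/
def openSet (V : ℕ → ℕ × ℕ × ℕ → Prop) (n : ℕ) : Set ℝ := ⋃ i ∈ {i | V n i}, ball i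

/-- A Martin-Löf test: a uniformly c.e. sequence of open sets, the `n`-th of measure at
most `2 ^ (-n)`. -/
def MLTest (V : ℕ → ℕ × ℕ × ℕ → Prop) : Prop :=
  REPred (fun z : ℕ × (ℕ × ℕ × ℕ) => V z.1 z.2) ∧
    ∀ n, volume (openSet V n) ≤ ENNReal.ofReal ((1 / 2 : ℝ) ^ n)

/-- Martin-Löf randomness of a nonnegative real: no test captures it. -/
def MLRandom (r : ℝ) : Prop := ∀ V, MLTest V → ∃ n, r ∉ openSet V n

end Pool.Agent.MPf476d2
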