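import Pool.Agent.MPf476d2.Defs

open Encodable

namespace Pool.Agent.MPf476d2

open Nat.Partrec (Code)

/-- primitive recursive enumeration of an r.e. set -/
theorem exists_enum {α : Type*} [Primcodable α] {p : α → Prop} (hp : REPred p) :
    ∃ f : ℕ → Option α, Primrec f ∧ ∀ a, p a ↔ ∃ n, f n = some a := by
  obtain ⟨c, hc⟩ := Code.exists_code.1 hp
  refine ⟨fun n => (decode (α := α) n.unpair.1).bind fun a =>
    if (Code.evaln n.unpair.2 c (encode a)).isSome = true then some a else none, ?_, ?_⟩
  · have h1 : Primrec fun n : ℕ => decode (α := α) n.unpair.1 :=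
      Primrec.decode.comp (Primrec.fst.comp Primrec.unpair)
    have h2 : Primrec fun z : ℕ × α => (Code.evaln z.1.unpair.2 c (encode z.2)).isSome :=
      Primrec.option_isSome.comp
        (Nat.Partrec.Code.primrec_evaln.comp
          (Primrec.pair (Primrec.pair (Primrec.snd.comp (Primrec.unpair.comp Primrec.fst))
            (Primrec.const c)) (Primrec.encode.comp Primrec.snd)))
    refine Primrec.option_bind h1 ?_
    refine Primrec.ite (Primrec.eq.comp h2 (Primrec.const true)) ?_ ?_
    · exact Primrec.option_some.comp Primrec.snd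
    · exact Primrec.const none
  · intro a
    have key : p a ↔ ∃ k, (Code.evaln k c (encode a)).isSome = true := by
      have h1 : (Code.eval c (encode a)).Dom ↔ p a := by
        rw [hc]
        simp [Part.assert]
      rw [← h1, Part.dom_iff_mem]
      constructor
      · rintro ⟨y, hy⟩
        obtain ⟨k, hk⟩ := Code.evaln_complete.1 hy
        exact ⟨k, by rw [Option.mem_def] at hk; simp [hk]⟩
      · rintro ⟨k, hk⟩
        obtain ⟨y, hy⟩ := Option.isSome_iff_exists.1 hk
        exact ⟨y, Code.evaln_sound (Option.mem_def.2 hy)⟩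
    constructor
    · intro ha
      obtain ⟨k, hk⟩ := key.1 ha
      refine ⟨Nat.pair (encode a) k, ?_⟩
      simp [hk]
    · rintro ⟨n, hn⟩
      simp only [Option.bind_eq_some_iff] at hn
      obtain ⟨b, hb, hb2⟩ := hn
      split_ifs at hb2 with h
      cases hb2
      exact key.2 ⟨_, h⟩

/-- primitive recursive enumeration of the graph of a machine, each program appearing once -/
theorem exists_births {U : List Bool →. List Bool} (hU : Partrec U) :
    ∃ f : ℕ → Option (List Bool × List Bool), Primrec f ∧
      (∀ n p x, f n = some (p, x) → x ∈ U p ∧ p.length ≤ n) ∧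
      (∀ p x, x ∈ U p → ∃ n, f n = some (p, x)) ∧
      (∀ n m p x y, f n = some (p, x) → f m = some (p, y) → n = m) := by
  obtain ⟨c, hc⟩ := Code.exists_code.1 hU
  let g : ℕ → List Bool → Option (List Bool) := fun k p =>
    (Code.evaln k c (encode p)).bind (fun y => decode (α := List Bool) y)
  have hg : ∀ p x, x ∈ U p ↔ ∃ k, g k p = some x := by
    intro p x
    have h1 : ∀ y, y ∈ Code.eval c (encode p) ↔ ∃ x ∈ U p, encode x = y := by
      intro y
      rw [hc]
      simp [Part.mem_map_iff]
    constructor
    · intro hx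
      obtain ⟨k, hk⟩ := Code.evaln_complete.1 ((h1 (encode x)).2 ⟨x, hx, rfl⟩)
      refine ⟨k, ?_⟩
      simp only [g]
      rw [Option.mem_def] at hk
      simp [hk]
    · rintro ⟨k, hk⟩
      simp only [g, Option.bind_eq_some_iff] at hk
      obtain ⟨y, hy1, hy2⟩ := hk
      obtain ⟨x', hx', rfl⟩ := (h1 y).1 (Code.evaln_sound (Option.mem_def.2 hy1))
      rw [encodek] at hy2
      cases hy2
      exact hx'
  have hmono : ∀ k l p x, k ≤ l → g k p = some x → g l p = some x := by
    intro k l p x hkl h
    simp only [g, Option.bind_eq_some_iff] at h ⊢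
    obtain ⟨y, hy1, hy2⟩ := h
    exact ⟨y, Option.mem_def.1 (Code.evaln_mono hkl (Option.mem_def.2 hy1)), hy2⟩
  have hg0 : ∀ p, g 0 p = none := by
    intro p
    simp [g, Code.evaln]
  have hgp : Primrec₂ g := by
    refine Primrec.option_bind ?_ ?_
    · exact Nat.Partrec.Code.primrec_evaln.comp
        (Primrec.pair (Primrec.pair Primrec.fst (Primrec.const c))
          (Primrec.encode.comp Primrec.snd))
    · exact (Primrec.decode.comp Primrec.snd).to₂
  refine ⟨fun n => (decode (α := List Bool) n.unpair.1).bind fun p =>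
    if encode p = n.unpair.1 ∧ g (n.unpair.2 - 1) p = none then
      (g n.unpair.2 p).map (fun x => (p, x)) else none, ?_, ?_, ?_, ?_⟩
  · have h1 : Primrec fun n : ℕ => decode (α := List Bool) n.unpair.1 :=
      Primrec.decode.comp (Primrec.fst.comp Primrec.unpair)
    have hn1 : Primrec fun z : ℕ × List Bool => z.1.unpair.1 :=
      Primrec.fst.comp (Primrec.unpair.comp Primrec.fst)
    have hn2 : Primrec fun z : ℕ × List Bool => z.1.unpair.2 :=
      Primrec.snd.comp (Primrec.unpair.comp Primrec.fst)
    refine Primrec.option_bind h1 ?_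
    refine Primrec.ite (PrimrecPred.and ?_ ?_) ?_ ?_
    · exact Primrec.eq.comp (Primrec.encode.comp Primrec.snd) hn1
    · exact Primrec.eq.comp
        (hgp.comp (Primrec.nat_sub.comp hn2 (Primrec.const 1)) Primrec.snd) (Primrec.const none)
    · refine Primrec.option_map (hgp.comp hn2 Primrec.snd) ?_
      exact (Primrec.pair (Primrec.snd.comp Primrec.fst) Primrec.snd).to₂
    · exact Primrec.const none
  · intro n p x h
    simp only [Option.bind_eq_some_iff] at h
    obtain ⟨p', hp', h⟩ := h
    split_ifs at h with h1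
    simp only [Option.map_eq_some_iff, Prod.mk.injEq] at h
    obtain ⟨x', hx', rfl, rfl⟩ := h
    refine ⟨(hg _ _).2 ⟨_, hx'⟩, ?_⟩
    have := Encodable.length_le_encode p'
    have h2 := Nat.unpair_left_le n
    omega
  · intro p x hx
    obtain ⟨k, hk⟩ := (hg p x).1 hx
    classical
    have hex : ∃ k, (g k p).isSome := ⟨k, by simp [hk]⟩
    set k0 := Nat.find hex with hk0
    have h1 : (g k0 p).isSome := Nat.find_spec hex
    have h2 : ∀ j < k0, ¬ (g j p).isSome := fun j hj => Nat.find_min hex hj
    obtain ⟨x', hx'⟩ := Option.isSome_iff_exists.1 h1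
    have hpos : 0 < k0 := by
      rcases Nat.eq_zero_or_pos k0 with h | h
      · rw [h, hg0] at hx'; cases hx'
      · exact h
    have hxx : x' = x := by
      have a1 := hmono k0 (max k0 k) p x' (le_max_left _ _) hx'
      have a2 := hmono k (max k0 k) p x (le_max_right _ _) hk
      rw [a1] at a2; cases a2; rfl
    subst hxx
    refine ⟨Nat.pair (encode p) k0, ?_⟩
    have h3 : g (k0 - 1) p = none := by
      have := h2 (k0 - 1) (by omega)
      simpa using this
    simp [h3, hx']
  · intro n m p x y hn hm
    simp only [Option.bind_eq_some_iff] at hn hm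
    obtain ⟨p1, hp1, hn⟩ := hn
    obtain ⟨p2, hp2, hm⟩ := hm
    split_ifs at hn with h1
    split_ifs at hm with h2
    simp only [Option.map_eq_some_iff, Prod.mk.injEq] at hn hm
    obtain ⟨x', hx', rfl, rfl⟩ := hn
    obtain ⟨y', hy', rfl, rfl⟩ := hm
    have hfst : n.unpair.1 = m.unpair.1 := by rw [← h1.1, ← h2.1]
    have hsnd : n.unpair.2 = m.unpair.2 := by
      rcases lt_trichotomy n.unpair.2 m.unpair.2 with h | h | h
      · have := hmono _ (m.unpair.2 - 1) _ _ (by omega) hx'
        rw [h2.2] at this; cases this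
      · exact h
      · have := hmono _ (n.unpair.2 - 1) _ _ (by omega) hy'
        rw [h1.2] at this; cases this
    rw [← Nat.pair_unpair n, ← Nat.pair_unpair m, hfst, hsnd]

end Pool.Agent.MPf476d2
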