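import Pool.Agent.MPf476d2.PlayInst

open MeasureTheory Finset Encodable Filter

namespace Pool.Agent.MPf476d2

namespace Good

variable {e : Env} {N : ℕ} {U : List Bool →. List Bool} {X : Set (List Bool)}
  {V : ℕ → ℕ × ℕ × ℕ → Prop} {x0 : List Bool} (g : Good e N U X V x0)

lemma sum_closed (n : ℕ) : ∑ t ∈ Ico 0 n, ((t : ℝ) + 2) * (1 / 2 : ℝ) ^ t =
    6 - (2 * n + 6) * (1 / 2 : ℝ) ^ n := by
  induction n with
  | zero => simp
  | succ n ih =>
    rw [Finset.sum_Ico_succ_top (Nat.zero_le n), ih]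
    push_cast
    rw [pow_succ]
    ring

lemma E_le (n : ℕ) : g.proc.E 0 n ≤ 6 * (1 / 2 : ℝ) ^ Env.qN N := by
  have h : g.proc.E 0 n = (1 / 2 : ℝ) ^ Env.qN N *
      ∑ t ∈ Ico 0 n, ((t : ℝ) + 2) * (1 / 2 : ℝ) ^ t := by
    unfold Proc.E
    rw [mul_sum]
    apply sum_congr rfl
    intro t _
    show ((t : ℝ) + 2) * (1 / 2 : ℝ) ^ (t + Env.qN N) = _
    rw [pow_add]; ring
  rw [h, sum_closed]
  have h1 : (0 : ℝ) < (1 / 2 : ℝ) ^ Env.qN N := by positivity
  have h2 : (0 : ℝ) ≤ (2 * n + 6) * (1 / 2 : ℝ) ^ n := by positivity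
  nlinarith

lemma P_le_act (s : ℕ) (h : g.core.act s) :
    g.core.P s ≤ (1 / 2 : ℝ) ^ (Env.wN N + 2) + 6 * (1 / 2 : ℝ) ^ Env.qN N := by
  have h1 := g.proc.main_bound s h
  have h2 := g.E_le s
  have hd : ((g.proc.toCore.d : ℕ) : ℝ) = 2 ^ (Env.wN N + 2) := by
    show ((Env.dN N : ℕ) : ℝ) = _
    unfold Env.dN
    push_cast; rfl
  rw [hd] at h1
  have hpos : (0 : ℝ) < 2 ^ (Env.wN N + 2) := by positivity
  change (2 : ℝ) ^ (Env.wN N + 2) * g.core.P s - 2 ^ (Env.wN N + 2) * g.proc.E 0 s ≤ 1 at h1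
  have h3 : g.core.P s - g.proc.E 0 s ≤ (1 / 2 : ℝ) ^ (Env.wN N + 2) := by
    rw [one_div, inv_pow, ← one_div, le_div_iff₀ hpos]
    linarith
  linarith

lemma P_bound (s : ℕ) : g.core.P s ≤
    (1 / 2 : ℝ) ^ (Env.wN N + 2) + 7 * (1 / 2 : ℝ) ^ Env.qN N := by
  induction s with
  | zero =>
    have : g.core.P 0 = 0 := g.proc.P0
    rw [this]; positivity
  | succ s ih =>
    by_cases h : g.core.act s
    · have h1 := g.P_le_act s h
      have hstep : g.core.P (s + 1) - g.core.P s ≤ (1 / 2 : ℝ) ^ Env.qN N := by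
        by_cases hne : g.core.P (s + 1) = g.core.P s
        · rw [hne, sub_self]; positivity
        · have hsub := (g.proc.pay s 0 h (dN_pos N) hne).1
          have hmono := g.proc.pay_mono s h
          change g.core.P s ≤ g.core.P (s + 1) at hmono
          have hvol := (measure_mono hsub).trans (g.core.VS_vol _ s)
          rw [Real.volume_Ioo] at hvol
          have e1 : g.proc.toCore.v s + (g.proc.toCore.P (s + 1) - g.proc.toCore.P s) -
            g.proc.toCore.v s = g.core.P (s + 1) - g.core.P s := by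
            show g.core.v s + (g.core.P (s + 1) - g.core.P s) - g.core.v s = _
            ring
          rw [e1] at hvol
          have h3 := (ENNReal.ofReal_le_ofReal_iff (by positivity)).1 hvol
          refine h3.trans ?_
          apply pow_le_pow_of_le_one (by norm_num) (by norm_num)
          exact Nat.le_add_left _ _
      linarith
    · rw [g.P_noact s h]; exact ih

lemma P_bound' (s : ℕ) : g.core.P s ≤ (1 / 2 : ℝ) ^ Env.wN N := by
  refine (g.P_bound s).trans ?_
  unfold Env.qN
  rw [pow_add, pow_add]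
  have : (0 : ℝ) < (1 / 2 : ℝ) ^ Env.wN N := by positivity
  norm_num
  nlinarith

/-- the string of length `t` with value `k` -/
noncomputable def str (t k : ℕ) : List Bool :=
  if h : k < 2 ^ t then (Env.exists_val t k h).choose else []

lemma str_spec {t k : ℕ} (h : k < 2 ^ t) : (str t k).length = t ∧ Env.val (str t k) = k := by
  unfold str
  rw [dif_pos h]
  exact (Env.exists_val t k h).choose_spec

/-- half of the next payment numerator -/
noncomputable def hk (e : Env) (N t : ℕ) : ℕ := (e.Pn_even N t).choose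

lemma hk_spec (t : ℕ) : e.Pn N (t + 1) = 2 * hk e N t ∧ e.Pn N t ≤ hk e N t :=
  (e.Pn_even N t).choose_spec

include g in
lemma hk_le (t : ℕ) : hk e N t * 2 ^ Env.wN N ≤ 2 ^ t := by
  have h := g.P_bound' (t + 1)
  rw [P_eq, (hk_spec t).1, one_div, inv_pow, ← one_div,
    div_le_div_iff₀ (by positivity) (by positivity)] at h
  have h2 : ((2 * hk e N t * 2 ^ Env.wN N : ℕ) : ℝ) ≤ ((2 ^ (t + 1) : ℕ) : ℝ) := by
    push_cast at h ⊢; linarith
  have h3 : 2 * hk e N t * 2 ^ Env.wN N ≤ 2 ^ (t + 1) := by exact_mod_cast h2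
  rw [pow_succ] at h3
  nlinarith

noncomputable def Dt (e : Env) (N t : ℕ) : Finset (List Bool) :=
  (Ico (e.Pn N t * 2 ^ Env.wN N) (hk e N t * 2 ^ Env.wN N)).image (str t)

lemma domB_iff (q : List Bool) : e.domB N q = true ↔
    e.Pn N q.length * 2 ^ Env.wN N ≤ Env.val q ∧ Env.val q < hk e N q.length * 2 ^ Env.wN N := by
  unfold Env.domB
  rw [decide_eq_true_eq]
  have h1 : (e.St N (q.length + 1)).2.2 = 2 * hk e N q.length := (hk_spec q.length).1
  have h2 : (e.St N q.length).2.2 = e.Pn N q.length := rfl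
  rw [h1, h2]
  constructor
  · rintro ⟨a, b⟩; exact ⟨a, by nlinarith⟩
  · rintro ⟨a, b⟩; exact ⟨a, by nlinarith⟩

include g in
lemma mem_Dt (t : ℕ) (q : List Bool) : q ∈ Dt e N t ↔ q.length = t ∧ e.domB N q = true := by
  have hle := g.hk_le t
  unfold Dt
  rw [mem_image]
  constructor
  · rintro ⟨k, hk1, rfl⟩
    rw [mem_Ico] at hk1
    obtain ⟨h1, h2⟩ := str_spec (t := t) (k := k) (by omega)
    refine ⟨h1, ?_⟩
    rw [domB_iff, h1, h2]
    exact hk1
  · rintro ⟨rfl, h⟩
    rw [domB_iff] at h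
    refine ⟨Env.val q, mem_Ico.2 h, ?_⟩
    obtain ⟨h1, h2⟩ := str_spec (t := q.length) (k := Env.val q) (Env.val_lt q)
    exact Env.val_inj h1 h2

include g in
lemma sum_Dt (t : ℕ) : ∑ q ∈ Dt e N t, (1 / 2 : ℝ) ^ (Env.wN N + q.length) =
    g.core.P (t + 1) - g.core.P t := by
  have hle := g.hk_le t
  have hinj : Set.InjOn (str t) (Ico (e.Pn N t * 2 ^ Env.wN N) (hk e N t * 2 ^ Env.wN N)) := by
    intro k hk1 l hl hkl
    simp only [coe_Ico, Set.mem_Ico] at hk1 hl
    have h1 := (str_spec (t := t) (k := k) (by omega)).2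
    have h2 := (str_spec (t := t) (k := l) (by omega)).2
    rw [← h1, ← h2, hkl]
  have h1 : ∑ q ∈ Dt e N t, (1 / 2 : ℝ) ^ (Env.wN N + q.length) =
      ∑ q ∈ Dt e N t, (1 / 2 : ℝ) ^ (Env.wN N + t) := by
    apply sum_congr rfl
    intro q hq
    rw [((g.mem_Dt t q).1 hq).1]
  rw [h1, sum_const]
  unfold Dt
  rw [card_image_of_injOn hinj, Nat.card_Ico, P_eq, P_eq, (hk_spec t).1, nsmul_eq_mul,
    Nat.cast_sub (Nat.mul_le_mul_right _ (hk_spec t).2)]
  push_cast
  rw [pow_add (1 / 2 : ℝ), pow_succ, one_div, inv_pow, inv_pow]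
  field_simp

include g in
lemma real_eventually (s0 : ℕ) (h : ∀ s ≥ s0, g.core.P s = g.core.P s0) :
    ∃ s1, ∀ s ≥ s1, g.core.R s = g.core.P s := by
  classical
  -- the finite domain
  set D : Finset (List Bool) := (range s0).biUnion (Dt e N) with hD
  have hDmem : ∀ q, q ∈ D ↔ e.domB N q = true := by
    intro q
    rw [hD, mem_biUnion]
    constructor
    · rintro ⟨t, -, hq⟩; exact ((g.mem_Dt t q).1 hq).2
    · intro hq
      refine ⟨q.length, ?_, (g.mem_Dt _ q).2 ⟨rfl, hq⟩⟩
      rw [mem_range]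
      by_contra hcon
      have h1 := h q.length (by omega)
      have h2 := h (q.length + 1) (by omega)
      have h3 := g.sum_Dt q.length
      rw [h1, h2, sub_self] at h3
      have h4 : q ∈ Dt e N q.length := (g.mem_Dt _ q).2 ⟨rfl, hq⟩
      have h5 := (sum_eq_zero_iff_of_nonneg (fun _ _ => by positivity)).1 h3 q h4
      have h6 : (0 : ℝ) < (1 / 2 : ℝ) ^ (Env.wN N + q.length) := by positivity
      linarith
  have hbirth : ∀ q, ∃ u, e.domB N q = true → e.bU u = some (Env.pre N ++ q, x0) := by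
    intro q
    by_cases hq : e.domB N q = true
    · have : x0 ∈ U (Env.pre N ++ q) := by
        rw [g.hU, if_pos hq]; simp
      obtain ⟨u, hu⟩ := g.b2 _ _ this
      exact ⟨u, fun _ => hu⟩
    · exact ⟨0, fun h' => absurd h' hq⟩
  choose b hb using hbirth
  have hbinj : Set.InjOn b D := by
    intro q hq r hr hqr
    have h1 := hb q ((hDmem q).1 hq)
    have h2 := hb r ((hDmem r).1 hr)
    rw [hqr, h2] at h1
    simp only [Option.some.injEq, Prod.mk.injEq, List.append_cancel_left_eq, and_true] at h1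
    exact h1.symm
  refine ⟨max s0 (D.sup b), fun s hs => ?_⟩
  have hs0 : s0 ≤ s := le_trans (le_max_left _ _) hs
  have hsb : D.sup b ≤ s := le_trans (le_max_right _ _) hs
  have hfilter : (range (s + 1)).filter (fun u => e.oppU N u = true) = D.image b := by
    ext u
    rw [mem_filter, mem_image]
    constructor
    · rintro ⟨-, hu⟩
      obtain ⟨q, hq1, hq2⟩ := g.opp_spec u hu
      exact ⟨q, (hDmem q).2 hq2, g.b3 _ _ _ _ _ (hb q hq2) hq1⟩
    · rintro ⟨q, hq, rfl⟩
      refine ⟨?_, ?_⟩
      · rw [mem_range]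
        have := Finset.le_sup (f := b) hq
        omega
      · rw [oppU_iff]
        refine ⟨_, hb q ((hDmem q).1 hq), ?_⟩
        simp [Env.wN]
  have hR : g.core.R s = ∑ u ∈ (range (s + 1)).filter (fun u => e.oppU N u = true), mass e u := by
    rw [sum_filter]
    unfold Core.R
    apply sum_congr rfl
    intro u _
    by_cases hu : e.oppU N u = true
    · rw [if_pos hu]; exact if_pos hu
    · rw [if_neg hu]; exact if_neg hu
  rw [hR, hfilter, sum_image hbinj, h s hs0]
  have hmass : ∀ q ∈ D, mass e (b q) = (1 / 2 : ℝ) ^ (Env.wN N + q.length) := by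
    intro q hq
    unfold mass
    rw [hb q ((hDmem q).1 hq)]
    simp [Env.wN]
  rw [sum_congr rfl hmass, hD, sum_biUnion]
  · rw [sum_congr rfl (fun t _ => g.sum_Dt t), sum_range_sub]
    have : g.core.P 0 = 0 := g.proc.P0
    rw [this, sub_zero]
  · intro t _ t' _ htt
    simp only [Function.onFun]
    rw [Finset.disjoint_left]
    intro q hq hq'
    exact htt (((g.mem_Dt t q).1 hq).1.symm.trans ((g.mem_Dt t' q).1 hq').1)

/-! ### the limit of the values -/

open scoped Classical in
noncomputable def fin (e : Env) (X : Set (List Bool)) (u : ℕ) : ℝ :=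
  if ∃ z, e.bU u = some z ∧ z.2 ∈ X then mass e u else 0

include g in
lemma mass_summable : Summable (mass e) :=
  summable_of_sum_range_le mass_nonneg g.mass_sum

include g in
lemma omega_eq : Omega U X = ∑' u, fin e X u := by
  classical
  unfold Omega
  let i : Function.support (fin e X) → List Bool := fun u => (e.bU u.1).elim [] (fun z => z.1)
  have hsup : ∀ u : Function.support (fin e X), ∃ z, e.bU u.1 = some z ∧ z.2 ∈ X := by
    rintro ⟨u, hu⟩
    rw [Function.mem_support] at hu
    unfold fin at hu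
    by_contra hcon
    rw [if_neg hcon] at hu
    exact hu rfl
  apply tsum_eq_tsum_of_ne_zero_bij i
  · intro u w huw
    obtain ⟨z, hz, -⟩ := hsup u
    obtain ⟨z', hz', -⟩ := hsup w
    simp only [i, hz, hz', Option.elim_some] at huw
    exact Subtype.ext (g.b3 u.1 w.1 z.1 z.2 z'.2 (by rw [hz]) (by rw [hz', huw]))
  · intro p hp
    rw [Function.mem_support] at hp
    have hp' : ∃ x ∈ X, x ∈ U p := by
      by_contra hcon
      have hcon' : p ∉ {p | ∃ x ∈ X, x ∈ U p} := hcon
      exact hp (Set.indicator_of_notMem hcon' _)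
    obtain ⟨x, hx, hxp⟩ := hp'
    obtain ⟨u, hu⟩ := g.b2 p x hxp
    have hfu : fin e X u ≠ 0 := by
      unfold fin
      rw [if_pos ⟨_, hu, hx⟩]
      unfold mass
      rw [hu]
      simp
    exact ⟨⟨u, hfu⟩, by simp [i, hu]⟩
  · intro u
    obtain ⟨z, hz, hzX⟩ := hsup u
    have hm : i u ∈ {p | ∃ x ∈ X, x ∈ U p} := by
      simp only [i, hz, Option.elim_some]
      exact ⟨z.2, hzX, (g.b1 u.1 z.1 z.2 (by rw [hz])).1⟩
    rw [Set.indicator_of_mem hm]
    unfold fin
    rw [if_pos ⟨z, hz, hzX⟩]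
    simp [mass, i, hz]

include g in
lemma v_tendsto : Tendsto g.core.v atTop (nhds (Omega U X)) := by
  classical
  rw [g.omega_eq]
  have hv : g.core.v = fun s => ∑' u, (if u ∈ range (s + 1) then
      (if e.deadU u s = true then 0 else mass e u) else 0) := by
    funext s
    rw [tsum_eq_sum (s := range (s + 1)) (fun u hu => by rw [if_neg hu])]
    unfold Core.v
    apply sum_congr rfl
    intro u hu
    rw [if_pos hu]
    by_cases hd : e.deadU u s = true
    · rw [if_pos hd]; exact if_pos hd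
    · rw [if_neg hd]; exact if_neg hd
  rw [hv]
  refine tendsto_tsum_of_dominated_convergence (bound := mass e) g.mass_summable ?_ ?_
  · intro u
    apply tendsto_const_nhds.congr'
    by_cases hz : ∃ z, e.bU u = some z
    · obtain ⟨z, hz⟩ := hz
      by_cases hX : z.2 ∈ X
      · filter_upwards [eventually_ge_atTop u] with s hs
        have h1 : u ∈ range (s + 1) := by rw [mem_range]; omega
        have h2 : ¬ e.deadU u s = true := by
          rw [deadU_iff]
          rintro ⟨z', hz', hd⟩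
          rw [hz] at hz'
          cases hz'
          rw [deadB_iff] at hd
          obtain ⟨t, -, ht⟩ := hd
          exact (g.w1 z.2).2 ⟨t, ht⟩ hX
        rw [if_pos h1, if_neg h2]
        unfold fin
        rw [if_pos ⟨z, hz, hX⟩]
      · obtain ⟨t, ht⟩ := (g.w1 z.2).1 hX
        filter_upwards [eventually_ge_atTop t] with s hs
        have h2 : e.deadU u s = true := by
          rw [deadU_iff]
          refine ⟨z, hz, ?_⟩
          rw [deadB_iff]
          exact ⟨t, by omega, ht⟩
        have h3 : ¬ ∃ z, e.bU u = some z ∧ z.2 ∈ X := by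
          rintro ⟨z', hz', hzX⟩
          rw [hz] at hz'
          cases hz'
          exact hX hzX
        unfold fin
        rw [if_neg h3, if_pos h2]
        simp
    · have hm : mass e u = 0 := by
        unfold mass
        cases h : e.bU u with
        | none => simp
        | some z => exact absurd ⟨z, h⟩ hz
      apply Eventually.of_forall
      intro s
      have h3 : ¬ ∃ z, e.bU u = some z ∧ z.2 ∈ X := fun ⟨z, h, _⟩ => hz ⟨z, h⟩
      unfold fin
      rw [if_neg h3, hm]
      simp
  · apply Eventually.of_forall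
    intro s u
    have hm := mass_nonneg (e := e) u
    split_ifs
    · simpa using hm
    · rw [Real.norm_of_nonneg hm]
    · simpa using hm

include g in
theorem not_captured (hx : ∀ c, Omega U X ∈ openSet V c) : False := by
  apply g.play.contradiction ((1 / 2 : ℝ) ^ Env.wN N) g.P_bound' (dN_pos N)
    g.real_eventually (Omega U X) g.v_tendsto
  intro c
  have h := hx c
  unfold openSet at h
  simp only [Set.mem_iUnion, Set.mem_ofPred_eq, exists_prop] at h
  obtain ⟨i, hi, hmem⟩ := h
  obtain ⟨t, ht⟩ := (g.t1 c i).1 hi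
  have hb := (mem_ball_iff (c, i) (Omega U X)).1 hmem
  refine ⟨(lft (c, i), rgt (c, i)), hb.1, hb.2, t + i.2.1 + i.2.2, fun s hs => ?_⟩
  exact ⟨t, by omega, (c, i), ⟨ht, rfl, by simp only; omega, by simp only; omega⟩, rfl⟩

end Good

end Pool.Agent.MPf476d2
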