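import Pool.Agent.MPf476d2.Core

open MeasureTheory Finset

namespace Pool.Agent.MPf476d2

/-- An adversary process playing against the units of `Core`. -/
structure Proc extends Core where
  P0 : toCore.P 0 = 0
  R0 : toCore.R 0 = 0
  T0 : ∀ i, toCore.T 0 i = 0
  Tz : ∀ s, toCore.T s 0 = 0
  noact : ∀ s, ¬ toCore.act s →
    (∀ i, toCore.T (s + 1) i = toCore.T s i) ∧ toCore.P (s + 1) = toCore.P s
  act_R : ∀ s, toCore.act s → toCore.R s = toCore.P s
  act_lt : ∀ s, toCore.act s → toCore.T s toCore.d < s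
  T_top : ∀ s, toCore.act s → toCore.T (s + 1) toCore.d = s
  T_or : ∀ s i, toCore.act s → i ≤ toCore.d →
    toCore.T (s + 1) i = toCore.T s i ∨ toCore.T (s + 1) i = s
  T_mono_i : ∀ s i, i < toCore.d → toCore.T s i ≤ toCore.T s (i + 1)
  clean : ∀ s i, toCore.act s → i < toCore.d → toCore.T (s + 1) (i + 1) ≠ s →
    (toCore.v (toCore.T s toCore.d) ≤ toCore.v s →
      Set.Ioo (toCore.v (toCore.T s toCore.d)) (toCore.v s) ⊆
        toCore.VS (toCore.T s i + toCore.q) s) ∧
    (∀ u ≤ toCore.T s i, toCore.dead u s → toCore.dead u (toCore.T s toCore.d))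
  pay_mono : ∀ s, toCore.act s → toCore.P s ≤ toCore.P (s + 1)
  pay : ∀ s i, toCore.act s → i < toCore.d → toCore.P (s + 1) ≠ toCore.P s →
    Set.Ioo (toCore.v s) (toCore.v s + (toCore.P (s + 1) - toCore.P s)) ⊆
        toCore.VS (toCore.T s i + toCore.q) s ∧ toCore.T (s + 1) i = toCore.T s i

namespace Proc

variable (K : Proc)

lemma T_le_top (s i : ℕ) (hi : i ≤ K.d) : K.T s i ≤ K.T s K.d := by
  obtain ⟨k, hk⟩ := Nat.exists_eq_add_of_le hi
  induction k generalizing i with
  | zero => have : i = K.d := by omega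
            rw [this]
  | succ k ih =>
    exact (K.T_mono_i s i (by omega)).trans (ih (i + 1) (by omega) (by omega))

lemma T_top_le (s : ℕ) : K.T s K.d ≤ s := by
  induction s with
  | zero => rw [K.T0]
  | succ s ih =>
    by_cases h : K.act s
    · rw [K.T_top s h]; omega
    · rw [(K.noact s h).1]; omega

lemma T_le (s i : ℕ) (hi : i ≤ K.d) : K.T s i ≤ s := (K.T_le_top s i hi).trans (K.T_top_le s)

lemma T_step (s i : ℕ) (hi : i ≤ K.d) : K.T s i ≤ K.T (s + 1) i := by
  by_cases h : K.act s
  · rcases K.T_or s i h hi with h' | h'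
    · rw [h']
    · rw [h']; exact K.T_le s i hi
  · rw [(K.noact s h).1]

lemma T_mono (i : ℕ) (hi : i ≤ K.d) {s t : ℕ} (hst : s ≤ t) : K.T s i ≤ K.T t i := by
  induction hst with
  | refl => exact le_rfl
  | step _ ih => exact ih.trans (K.T_step _ i hi)

lemma T_const (i : ℕ) (hi : i ≤ K.d) (n s : ℕ) (h1 : K.T n i < s) (h2 : s ≤ n) :
    K.T s i = K.T n i := by
  induction n with
  | zero => have : s = 0 := by omega
            rw [this]
  | succ n ih =>
    rcases Nat.lt_or_ge n s with h | h
    · have : s = n + 1 := by omega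
      rw [this]
    · by_cases ha : K.act n
      · rcases K.T_or n i ha hi with h' | h'
        · rw [h'] at h1 ⊢; exact ih h1 h
        · rw [h'] at h1; omega
      · rw [(K.noact n ha).1] at h1 ⊢; exact ih h1 h

lemma T_zero_or_act (n i : ℕ) (hi : i ≤ K.d) : K.T n i = 0 ∨ K.act (K.T n i) := by
  induction n with
  | zero => left; exact K.T0 i
  | succ n ih =>
    by_cases ha : K.act n
    · rcases K.T_or n i ha hi with h' | h'
      · rw [h']; exact ih
      · rw [h']; exact Or.inr ha
    · rw [(K.noact n ha).1]; exact ih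

lemma real_T (n i : ℕ) (hi : i ≤ K.d) : K.R (K.T n i) = K.P (K.T n i) := by
  rcases K.T_zero_or_act n i hi with h | h
  · rw [h, K.R0, K.P0]
  · exact K.act_R _ h

/-- the payment does not change between the last act and now -/
lemma P_const (s : ℕ) : ∀ n, K.T n K.d < s → s ≤ n → K.P s = K.P n := by
  intro n
  induction n with
  | zero => intro h1 h2; have : s = 0 := by omega
            rw [this]
  | succ n ih =>
    intro h1 h2
    rcases Nat.lt_or_ge n s with h | h
    · have : s = n + 1 := by omega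
      rw [this]
    · by_cases ha : K.act n
      · rw [K.T_top n ha] at h1; omega
      · rw [(K.noact n ha).1] at h1
        rw [(K.noact n ha).2]; exact ih h1 h

lemma P_step (s : ℕ) : K.P s ≤ K.P (s + 1) := by
  by_cases h : K.act s
  · exact K.pay_mono s h
  · rw [(K.noact s h).2]

lemma P_mono {s t : ℕ} (hst : s ≤ t) : K.P s ≤ K.P t := by
  induction hst with
  | refl => exact le_rfl
  | step _ ih => exact ih.trans (K.P_step _)

lemma act_pos (n : ℕ) (h : K.act n) : K.T n K.d < n := K.act_lt n h

/-- inside a block the measure function follows the value and no old unit dies -/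
lemma chain (n i : ℕ) (hi : i < K.d) (s : ℕ) (hs : K.T n (i + 1) + 1 ≤ s) (hsn : s ≤ n) :
    K.T n (i + 1) ≤ K.T s K.d ∧
    K.G (K.T n i + K.q) (K.T n (i + 1)) (K.v (K.T n (i + 1))) +
      (K.v (K.T s K.d) - K.v (K.T n (i + 1))) ≤
        K.G (K.T n i + K.q) (K.T s K.d) (K.v (K.T s K.d)) ∧
    (∀ u ≤ K.T n i, K.dead u (K.T s K.d) → K.dead u (K.T n (i + 1))) := by
  set b := K.T n (i + 1) with hb
  set m := K.T n i with hm
  have hmb : m ≤ b := K.T_mono_i n i hi
  induction s, hs using Nat.le_induction with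
  | base =>
    have e : K.T (b + 1) K.d = b := by
      rcases K.T_zero_or_act n (i + 1) (by omega) with h | h
      · rw [← hb] at h
        have hna : ¬ K.act b := by
          intro ha
          have := K.act_lt b ha
          omega
        rw [(K.noact b hna).1, h, K.T0]
      · rw [← hb] at h
        exact K.T_top b h
    rw [e]
    refine ⟨le_rfl, ?_, fun u _ h => h⟩
    simp
  | succ s hs ih =>
    obtain ⟨h1, h2, h3⟩ := ih (by omega)
    by_cases ha : K.act s
    · rw [K.T_top s ha]
      have hbs : K.T (s + 1) (i + 1) = b := by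
        rw [hb]; apply K.T_const (i + 1) (by omega) n (s + 1) (by omega) hsn
      have hms : K.T s i = m := by
        rw [hm]; apply K.T_const i (by omega) n s (by omega) (by omega)
      obtain ⟨c1, c2⟩ := K.clean s i ha hi (by rw [hbs]; omega)
      rw [hms] at c1 c2
      refine ⟨by omega, ?_, ?_⟩
      · have hle : K.T s K.d ≤ s := K.T_top_le s
        have := K.toCore.G_move (m + K.q) hle c1
        linarith
      · intro u hu hd
        exact h3 u hu (c2 u hu hd)
    · rw [(K.noact s ha).1]
      exact ⟨h1, h2, h3⟩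

/-- the key inequality for the current block -/
lemma block (n i : ℕ) (hi : i < K.d) (hn : K.act n) :
    K.P n - K.P (K.T n (i + 1)) ≤ K.Mid (K.T n i) (K.T n (i + 1)) n +
      (K.G (K.T n i + K.q) n (K.v n) -
        K.G (K.T n i + K.q) (K.T n (i + 1)) (K.v (K.T n (i + 1)))) +
      (1 / 2 : ℝ) ^ (K.T n i + K.q) *
        ((K.anc (K.T n i) n : ℝ) - K.anc (K.T n i) (K.T n (i + 1))) := by
  set b := K.T n (i + 1) with hb
  set m := K.T n i with hm
  set c := m + K.q with hc
  set e := K.T n K.d with he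
  have hmb : m ≤ b := K.T_mono_i n i hi
  have hen : e < n := K.act_lt n hn
  have hbn : b ≤ e := K.T_le_top n (i + 1) (by omega)
  obtain ⟨hbe, hG, hdead⟩ := K.chain n i hi n (by omega) le_rfl
  rw [← hb, ← hm, ← hc, ← he] at hG
  rw [← hb, ← hm, ← he] at hdead
  have hPe : K.R e = K.P e := K.real_T n K.d le_rfl
  have hPb : K.R b = K.P b := K.real_T n (i + 1) (by omega)
  have hPn : K.R n = K.P n := K.act_R n hn
  have hv1 := K.toCore.v_diff hbe
  rw [← hb, ← he, hPe, hPb, K.toCore.Dold_eq_Mid (m := m) hdead] at hv1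
  set δ := K.P n - K.P e with hδ
  have hδ0 : 0 ≤ δ := by have := K.P_mono hen.le; rw [hδ]; linarith
  have hpay : K.G c e (K.v e) + δ ≤ K.G c e (K.v e + δ) := by
    have hP1 : K.P (e + 1) = K.P n := K.P_const (e + 1) n (by omega) (by omega)
    by_cases h0 : K.P (e + 1) = K.P e
    · have : δ = 0 := by rw [hδ, ← hP1, h0]; ring
      rw [this]; simp
    · have hact : K.act e := by
        by_contra hna
        exact h0 (K.noact e hna).2
      obtain ⟨p1, p2⟩ := K.pay e i hact hi h0
      have hme : K.T (e + 1) i = m := by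
        rw [hm]; apply K.T_const i (by omega) n (e + 1) (by omega) (by omega)
      rw [← p2, hme, hP1, ← hδ, ← hc] at p1
      have := K.toCore.G_add c e (by linarith : K.v e ≤ K.v e + δ) p1
      linarith
  have hanc : K.anc m b ≤ K.anc m n := K.toCore.anc_mono (by omega)
  have hanc' : (K.anc m b : ℝ) ≤ K.anc m n := by exact_mod_cast hanc
  have hpow : (0 : ℝ) < (1 / 2 : ℝ) ^ c := by positivity
  have hMid := K.toCore.Mid_mono (m := m) (b := b) hen.le
  by_cases hanc2 : ∀ u ≤ m, K.dead u n → K.dead u e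
  · have hd2 : ∀ u ≤ m, K.dead u n → K.dead u b := fun u hu h => hdead u hu (hanc2 u hu h)
    have hv2 := K.toCore.v_diff (show b ≤ n by omega)
    rw [hPn, hPb, K.toCore.Dold_eq_Mid (m := m) hd2] at hv2
    have hextra : 0 ≤ (1 / 2 : ℝ) ^ c * ((K.anc m n : ℝ) - K.anc m b) :=
      mul_nonneg hpow.le (by linarith)
    rcases le_total (K.v e + δ) (K.v n) with hcase | hcase
    · have g1 := K.toCore.G_mono c hen.le hcase
      linarith
    · have g1 := K.toCore.G_lip c e hcase
      have g2 := K.toCore.G_mono c hen.le (le_refl (K.v n))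
      linarith
  · push Not at hanc2
    obtain ⟨u, hu, hu1, hu2⟩ := hanc2
    have hub : ¬ K.dead u b := fun h => hu2 (K.dead_mono u b e hbe h)
    have hlt := K.toCore.anc_lt hmb (show b ≤ n by omega) u hu hub hu1
    have hlt' : (K.anc m b : ℝ) + 1 ≤ K.anc m n := by exact_mod_cast hlt
    have hG0 := K.toCore.G_nonneg c n (K.v n)
    have hGle := K.toCore.G_le c e (K.v e + δ)
    have hextra : (1 / 2 : ℝ) ^ c * 1 ≤ (1 / 2 : ℝ) ^ c * ((K.anc m n : ℝ) - K.anc m b) :=
      mul_le_mul_of_nonneg_left (by linarith) hpow.le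
    linarith

noncomputable def E (m n : ℕ) : ℝ := ∑ t ∈ Ico m n, K.err t

lemma E_nonneg (m n : ℕ) : 0 ≤ K.E m n := sum_nonneg fun t _ => K.toCore.err_nonneg t

lemma E_split {m b n : ℕ} (h1 : m ≤ b) (h2 : b ≤ n) : K.E m n = K.E m b + K.E b n := by
  unfold E
  rw [Finset.sum_Ico_consecutive _ h1 h2]

lemma err_le_E {m n : ℕ} (h : m < n) : K.err m ≤ K.E m n := by
  unfold E
  exact single_le_sum (f := fun t => K.err t) (fun t _ => K.toCore.err_nonneg t)
    (by simp [h])

/-- the level inequality -/
lemma level (k : ℕ) : ∀ i, i + k = K.d → ∀ n, K.act n →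
    (k : ℝ) * (K.P n - K.P (K.T n i)) - k * K.E (K.T n i) n ≤ K.L (K.T n i) n := by
  induction k with
  | zero =>
    intro i _ n _
    have := K.toCore.L_nonneg (K.T n i) n
    simpa using this
  | succ k ihk =>
    intro i hik
    have hi : i < K.d := by omega
    -- cumulative inequality
    have key : ∀ n, K.act n →
        ((k : ℝ) + 1) * (K.P n - K.P (K.T n i)) - k * K.E (K.T n i) n
          - (K.G (K.T n i + K.q) n (K.v n) -
              K.G (K.T n i + K.q) (K.T n i) (K.v (K.T n i)))
          - (1 / 2 : ℝ) ^ (K.T n i + K.q) * (K.anc (K.T n i) n : ℝ) ≤ K.L (K.T n i) n := by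
      intro n
      induction n using Nat.strong_induction_on with
      | _ n ih =>
        intro hn
        have hbl := K.block n i hi hn
        have hL := ihk (i + 1) (by omega) n hn
        have hmb : K.T n i ≤ K.T n (i + 1) := K.T_mono_i n i hi
        have hbn' : K.T n (i + 1) ≤ K.T n K.d := K.T_le_top n (i + 1) (by omega)
        have hbn : K.T n (i + 1) < n := lt_of_le_of_lt hbn' (K.act_lt n hn)
        have hsplit := K.toCore.L_split hmb hbn.le
        have hE := K.E_split hmb hbn.le
        -- inequality at b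
        have hb : ((k : ℝ) + 1) * (K.P (K.T n (i + 1)) - K.P (K.T n i))
            - k * K.E (K.T n i) (K.T n (i + 1))
            - (K.G (K.T n i + K.q) (K.T n (i + 1)) (K.v (K.T n (i + 1))) -
                K.G (K.T n i + K.q) (K.T n i) (K.v (K.T n i)))
            - (1 / 2 : ℝ) ^ (K.T n i + K.q) * (K.anc (K.T n i) (K.T n (i + 1)) : ℝ) ≤
              K.L (K.T n i) (K.T n (i + 1)) := by
          rcases eq_or_lt_of_le hmb with heq | hlt
          · rw [← heq, K.toCore.L_self, K.toCore.anc_self]
            simp [E]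
          · have hact : K.act (K.T n (i + 1)) := by
              rcases K.T_zero_or_act n (i + 1) (by omega) with h | h
              · omega
              · exact h
            have hT : K.T (K.T n (i + 1)) i = K.T n i :=
              K.T_const i (by omega) n _ hlt hbn.le
            have := ih _ hbn hact
            rw [hT] at this
            exact this
        rw [hsplit, hE]
        have e1 : ((k : ℝ) + 1) * (K.P n - K.P (K.T n i)) =
          ((k : ℝ) + 1) * (K.P (K.T n (i + 1)) - K.P (K.T n i)) +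
          k * (K.P n - K.P (K.T n (i + 1))) + (K.P n - K.P (K.T n (i + 1))) := by ring
        have e2 : (1 / 2 : ℝ) ^ (K.T n i + K.q) *
            ((K.anc (K.T n i) n : ℝ) - K.anc (K.T n i) (K.T n (i + 1))) =
            (1 / 2 : ℝ) ^ (K.T n i + K.q) * (K.anc (K.T n i) n : ℝ) -
            (1 / 2 : ℝ) ^ (K.T n i + K.q) * (K.anc (K.T n i) (K.T n (i + 1)) : ℝ) := by ring
        rw [e1]
        rw [e2] at hbl
        nlinarith [hbl, hL, hb]
    intro n hn
    have h := key n hn
    have hmn : K.T n i < n := lt_of_le_of_lt (K.T_le_top n i (by omega)) (K.act_lt n hn)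
    have h1 := K.toCore.G_le (K.T n i + K.q) n (K.v n)
    have h2 := K.toCore.G_nonneg (K.T n i + K.q) (K.T n i) (K.v (K.T n i))
    have h3 : (K.anc (K.T n i) n : ℝ) ≤ K.T n i + 1 := by
      exact_mod_cast K.toCore.anc_le (K.T n i) n
    have hpow : (0 : ℝ) < (1 / 2 : ℝ) ^ (K.T n i + K.q) := by positivity
    have h4 : (1 / 2 : ℝ) ^ (K.T n i + K.q) * (K.anc (K.T n i) n : ℝ) ≤
      (1 / 2 : ℝ) ^ (K.T n i + K.q) * (K.T n i + 1) := mul_le_mul_of_nonneg_left h3 hpow.le
    have h5 := K.err_le_E hmn
    have h6 : K.err (K.T n i) = (1 / 2 : ℝ) ^ (K.T n i + K.q) * (K.T n i + 1) +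
      (1 / 2 : ℝ) ^ (K.T n i + K.q) := by unfold Core.err; ring
    push_cast
    nlinarith [h, h1, h2, h4, h5, h6]

theorem main_bound (n : ℕ) (hn : K.act n) : (K.d : ℝ) * K.P n - K.d * K.E 0 n ≤ 1 := by
  have h := K.level K.d 0 (by omega) n hn
  have h1 := K.toCore.L_le_one (K.T n 0) n
  rw [K.Tz, K.P0, sub_zero] at h
  rw [K.Tz] at h1
  linarith

end Proc

end Pool.Agent.MPf476d2
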