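import Pool.Agent.MPf476d2.Game

open MeasureTheory Finset Filter

namespace Pool.Agent.MPf476d2

/-- `Proc` together with the exact rules the adversary follows. -/
structure Play extends Proc where
  Iv : ℕ → ℕ → Set (ℝ × ℝ)
  Iv_mono : ∀ c s t, s ≤ t → Iv c s ⊆ Iv c t
  act_of : ∀ s, toProc.R s = toProc.P s → toProc.T s toProc.d < s →
    (∀ i < toProc.d, ∃ z ∈ Iv (toProc.T s i + toProc.q) s, z.1 < toProc.v s ∧ toProc.v s < z.2) →
    toProc.act s
  reset : ∀ s i, toProc.act s → i + 1 < toProc.d →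
    toProc.T (s + 1) (i + 1) ≠ toProc.T s (i + 1) →
    ∃ j ≤ i, ¬ ((∃ z ∈ Iv (toProc.T s j + toProc.q) s,
        z.1 < toProc.v s ∧ toProc.v s < z.2 ∧
        z.1 < toProc.v (toProc.T s toProc.d) ∧ toProc.v (toProc.T s toProc.d) < z.2) ∧
      ∀ u ≤ toProc.T s j, toProc.dead u s → toProc.dead u (toProc.T s toProc.d))
  payment : ∀ s, toProc.act s →
    (∃ j, j + 1 < toProc.d ∧ ¬ ((∃ z ∈ Iv (toProc.T s j + toProc.q) s,
        z.1 < toProc.v s ∧ toProc.v s < z.2 ∧
        z.1 < toProc.v (toProc.T s toProc.d) ∧ toProc.v (toProc.T s toProc.d) < z.2) ∧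
      ∀ u ≤ toProc.T s j, toProc.dead u s → toProc.dead u (toProc.T s toProc.d))) ∨
    1 ≤ toProc.P (s + 1) - toProc.P s ∨
    ∃ i < toProc.d, ∀ z ∈ Iv (toProc.T s i + toProc.q) s,
      z.1 < toProc.v s → toProc.v s < z.2 → z.2 - toProc.v s ≤ toProc.P (s + 1) - toProc.P s

namespace Play

variable (K : Play)

theorem contradiction (B : ℝ) (hB : ∀ s, K.P s ≤ B) (hd : 1 ≤ K.d)
    (hreal : ∀ s0, (∀ s ≥ s0, K.P s = K.P s0) → ∃ s1, ∀ s ≥ s1, K.R s = K.P s)
    (x : ℝ) (hx : Tendsto K.v atTop (nhds x))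
    (hI : ∀ c, ∃ z : ℝ × ℝ, z.1 < x ∧ x < z.2 ∧ ∃ s0, ∀ s ≥ s0, z ∈ K.Iv c s) : False := by
  -- intervals around `x`
  choose z hz1 hz2 hz3 using hI
  have hev : ∀ c, ∀ᶠ s in atTop, z c ∈ K.Iv c s ∧ (z c).1 < K.v s ∧
      K.v s < (x + (z c).2) / 2 := by
    intro c
    obtain ⟨s0, hs0⟩ := hz3 c
    have h1 : ∀ᶠ s in atTop, z c ∈ K.Iv c s := eventually_atTop.2 ⟨s0, hs0⟩
    have h2 : ∀ᶠ s in atTop, (z c).1 < K.v s := hx.eventually (lt_mem_nhds (hz1 c))
    have h3 : ∀ᶠ s in atTop, K.v s < (x + (z c).2) / 2 :=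
      hx.eventually (gt_mem_nhds (by have := hz2 c; linarith))
    filter_upwards [h1, h2, h3] with s a b c using ⟨a, b, c⟩
  have hmid : ∀ c, (x + (z c).2) / 2 < (z c).2 := fun c => by have := hz2 c; linarith
  -- infinitely many acts
  have step1 : ∀ s0, ∃ s ≥ s0, K.act s := by
    intro s0
    by_contra hcon
    push Not at hcon
    have hT : ∀ s ≥ s0, ∀ i, K.T s i = K.T s0 i := by
      intro s hs
      induction s, hs using Nat.le_induction with
      | base => intro i; rfl
      | succ s hs ih => intro i; rw [(K.noact s (hcon s hs)).1, ih]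
    have hP : ∀ s ≥ s0, K.P s = K.P s0 := by
      intro s hs
      induction s, hs using Nat.le_induction with
      | base => rfl
      | succ s hs ih => rw [(K.noact s (hcon s hs)).2, ih]
    obtain ⟨s1, hs1⟩ := hreal s0 hP
    have hall : ∀ᶠ s in atTop, ∀ i ∈ range K.d, z (K.T s0 i + K.q) ∈ K.Iv (K.T s0 i + K.q) s ∧
        (z (K.T s0 i + K.q)).1 < K.v s ∧ K.v s < (x + (z (K.T s0 i + K.q)).2) / 2 := by
      rw [Filter.eventually_all_finset]
      intro i _
      exact hev _
    obtain ⟨s, hs, hsa⟩ := (hall.and (eventually_ge_atTop (max s0 s1 + 1 + K.T s0 K.d))).exists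
    have hs0' : s0 ≤ s := by
      have := le_max_left s0 s1; omega
    have hs1' : s1 ≤ s := by
      have := le_max_right s0 s1; omega
    apply hcon s hs0'
    apply K.act_of s (hs1 s hs1')
    · rw [hT s hs0']; omega
    · intro i hi
      rw [hT s hs0']
      obtain ⟨a, b, c⟩ := hs i (mem_range.2 hi)
      exact ⟨_, a, b, c.trans (hmid _)⟩
  have hTd : ∀ S, ∃ S', ∀ s ≥ S', S ≤ K.T s K.d := by
    intro S
    obtain ⟨s, hs, ha⟩ := step1 S
    refine ⟨s + 1, fun t ht => ?_⟩
    have := K.toProc.T_mono K.d le_rfl ht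
    rw [K.T_top s ha] at this
    omega
  -- no interruption at a level that is eventually constant
  have hclean : ∀ j, j < K.d → (∃ S, ∀ s ≥ S, K.T s j = K.T S j) →
      ∃ S, ∀ s ≥ S, ((∃ z ∈ K.Iv (K.T s j + K.q) s,
        z.1 < K.v s ∧ K.v s < z.2 ∧ z.1 < K.v (K.T s K.d) ∧ K.v (K.T s K.d) < z.2) ∧
      ∀ u ≤ K.T s j, K.dead u s → K.dead u (K.T s K.d)) := by
    rintro j hj ⟨S, hS⟩
    obtain ⟨S1, hS1⟩ := eventually_atTop.1 (hev (K.T S j + K.q))
    -- dead status of the old units stabilises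
    have hdead : ∃ S2, ∀ u ∈ range (K.T S j + 1), ∀ s, K.dead u s → K.dead u S2 := by
      have : ∀ u, ∃ S2, ∀ s, K.dead u s → K.dead u S2 := by
        intro u
        by_cases h : ∃ s, K.dead u s
        · obtain ⟨s, hs⟩ := h
          exact ⟨s, fun _ _ => hs⟩
        · push Not at h
          exact ⟨0, fun s hs => absurd hs (h s)⟩
      choose f hf using this
      refine ⟨(range (K.T S j + 1)).sup f, fun u hu s hs => ?_⟩
      exact K.dead_mono u _ _ (Finset.le_sup hu) (hf u s hs)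
    obtain ⟨S2, hS2⟩ := hdead
    obtain ⟨S3, hS3⟩ := hTd (max S1 S2)
    refine ⟨max S3 (max S S1), fun s hs => ?_⟩
    have h1 : S3 ≤ s := le_trans (le_max_left _ _) hs
    have h2 : S ≤ s := le_trans (le_trans (le_max_left _ _) (le_max_right _ _)) hs
    have h3 : S1 ≤ s := le_trans (le_trans (le_max_right _ _) (le_max_right _ _)) hs
    have h4 := hS3 s h1
    have h5 : S1 ≤ K.T s K.d := le_trans (le_max_left _ _) h4
    have h6 : S2 ≤ K.T s K.d := le_trans (le_max_right _ _) h4
    rw [hS s h2]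
    obtain ⟨a1, a2, a3⟩ := hS1 s h3
    obtain ⟨b1, b2, b3⟩ := hS1 _ h5
    refine ⟨⟨_, a1, a2, a3.trans (hmid _), b2, b3.trans (hmid _)⟩, fun u hu hdu => ?_⟩
    exact K.dead_mono u _ _ h6 (hS2 u (mem_range.2 (by omega)) s hdu)
  -- all levels stabilise
  have step2 : ∀ i, i < K.d → ∃ S, ∀ s ≥ S, K.T s i = K.T S i := by
    intro i
    induction i using Nat.strong_induction_on with
    | _ i ih =>
      intro hi
      rcases Nat.eq_zero_or_pos i with h0 | h0
      · subst h0
        exact ⟨0, fun s _ => by rw [K.Tz, K.Tz]⟩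
      · obtain ⟨i, rfl⟩ : ∃ k, i = k + 1 := ⟨i - 1, by omega⟩
        have : ∀ j, ∃ S, j ≤ i → ∀ s ≥ S, ((∃ z ∈ K.Iv (K.T s j + K.q) s,
          z.1 < K.v s ∧ K.v s < z.2 ∧ z.1 < K.v (K.T s K.d) ∧ K.v (K.T s K.d) < z.2) ∧
          ∀ u ≤ K.T s j, K.dead u s → K.dead u (K.T s K.d)) := by
          intro j
          by_cases hj : j ≤ i
          · obtain ⟨S, hS⟩ := hclean j (by omega) (ih j (by omega) (by omega))
            exact ⟨S, fun _ => hS⟩
          · exact ⟨0, fun h => absurd h hj⟩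
        choose f hf using this
        refine ⟨(range (i + 1)).sup f, fun s hs => ?_⟩
        induction s, hs using Nat.le_induction with
        | base => rfl
        | succ s hs ihs =>
          rw [← ihs]
          by_cases ha : K.act s
          · by_contra hne
            obtain ⟨j, hj, hbad⟩ := K.reset s i ha (by omega) hne
            apply hbad
            apply hf j hj s
            exact le_trans (Finset.le_sup (mem_range.2 (by omega))) hs
          · exact (K.noact s ha).1 _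
  -- eventually each act pays a fixed amount
  have step3 : ∃ ρ > 0, ∃ S, ∀ s ≥ S, K.act s → K.P s + ρ ≤ K.P (s + 1) := by
    have hst : ∀ j, ∃ S, j < K.d → ∀ s ≥ S, K.T s j = K.T S j := by
      intro j
      by_cases hj : j < K.d
      · obtain ⟨S, hS⟩ := step2 j hj; exact ⟨S, fun _ => hS⟩
      · exact ⟨0, fun h => absurd h hj⟩
    choose f hf using hst
    have hcl : ∀ j, ∃ S, j < K.d → ∀ s ≥ S, ((∃ z ∈ K.Iv (K.T s j + K.q) s,
          z.1 < K.v s ∧ K.v s < z.2 ∧ z.1 < K.v (K.T s K.d) ∧ K.v (K.T s K.d) < z.2) ∧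
          ∀ u ≤ K.T s j, K.dead u s → K.dead u (K.T s K.d)) := by
      intro j
      by_cases hj : j < K.d
      · obtain ⟨S, hS⟩ := hclean j hj (step2 j hj); exact ⟨S, fun _ => hS⟩
      · exact ⟨0, fun h => absurd h hj⟩
    choose g hg using hcl
    set c : ℕ → ℕ := fun j => K.T (f j) j + K.q with hc
    -- positive lower bound
    set ρ : ℝ := (range K.d).inf' ⟨0, mem_range.2 hd⟩
      (fun j => min 1 (((z (c j)).2 - x) / 2)) with hρ
    have hρ0 : 0 < ρ := by
      rw [hρ, Finset.lt_inf'_iff]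
      intro j _
      apply lt_min one_pos
      have := hz2 (c j); linarith
    have hρj : ∀ j < K.d, ρ ≤ min 1 (((z (c j)).2 - x) / 2) := fun j hj => by
      rw [hρ]; exact Finset.inf'_le _ (mem_range.2 hj)
    choose h hh using fun cc => eventually_atTop.1 (hev cc)
    refine ⟨ρ, hρ0, (range K.d).sup f + (range K.d).sup g + (range K.d).sup (fun j => h (c j)),
      fun s hs ha => ?_⟩
    rcases K.payment s ha with ⟨j, hj, hbad⟩ | h1 | ⟨i, hi, h2⟩
    · exfalso
      apply hbad
      apply hg j (by omega) s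
      have := Finset.le_sup (f := g) (mem_range.2 (show j < K.d by omega))
      omega
    · have := (hρj 0 (by omega)).trans (min_le_left _ _)
      linarith
    · have hT : K.T s i + K.q = c i := by
        have := Finset.le_sup (f := f) (mem_range.2 hi)
        rw [hf i hi s (by omega)]
      rw [hT] at h2
      have hle := Finset.le_sup (f := fun j => h (c j)) (mem_range.2 hi)
      obtain ⟨a1, a2, a3⟩ := hh (c i) s (by omega)
      have h3 := h2 _ a1 a2 (a3.trans (hmid _))
      have h4 := (hρj i hi).trans (min_le_right _ _)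
      linarith
  obtain ⟨ρ, hρ, S, hS⟩ := step3
  have grow : ∀ k : ℕ, ∃ s, (k : ℝ) * ρ + K.P 0 ≤ K.P s := by
    intro k
    induction k with
    | zero => exact ⟨0, by simp⟩
    | succ k ih =>
      obtain ⟨s, hs⟩ := ih
      obtain ⟨t, ht, ha⟩ := step1 (max s S)
      refine ⟨t + 1, ?_⟩
      have h1 := hS t (le_trans (le_max_right _ _) ht) ha
      have h2 := K.toProc.P_mono (le_trans (le_max_left s S) ht)
      push_cast
      linarith
  obtain ⟨k, hk⟩ := exists_nat_gt ((B - K.P 0) / ρ)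
  obtain ⟨s, hs⟩ := grow k
  have := hB s
  rw [div_lt_iff₀ hρ] at hk
  linarith

end Play

end Pool.Agent.MPf476d2
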