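import Pool.Agent.MPf476d2.State

open MeasureTheory Finset Encodable

namespace Pool.Agent.MPf476d2

namespace Good

variable {e : Env} {N : ℕ} {U : List Bool →. List Bool} {X : Set (List Bool)}
  {V : ℕ → ℕ × ℕ × ℕ → Prop} {x0 : List Bool} (g : Good e N U X V x0)

lemma act_iff (s : ℕ) : g.core.act s ↔ e.actB N s (e.St N s) = true := Iff.rfl

lemma a_lt (s : ℕ) (h : e.actB N s (e.St N s) = true) : (e.St N s).2.1 < s :=
  ((act_spec s).1 h).1.2

lemma P_eq (s : ℕ) : g.core.P s = (e.Pn N s : ℝ) / 2 ^ s := rfl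

lemma P_succ (s : ℕ) (h : e.actB N s (e.St N s) = true) :
    g.core.P (s + 1) = (e.newP N s (e.St N s) : ℝ) / 2 ^ s := by
  rw [P_eq]
  unfold Env.Pn
  rw [St_act s h]
  simp only
  push_cast
  rw [pow_succ]
  field_simp

lemma P_noact (s : ℕ) (h : ¬ e.actB N s (e.St N s) = true) :
    g.core.P (s + 1) = g.core.P s := by
  rw [P_eq, P_eq]
  unfold Env.Pn
  rw [St_noact s h]
  simp only
  push_cast
  rw [pow_succ]
  field_simp

lemma P_reset (s : ℕ) (h : e.actB N s (e.St N s) = true)
    (h2 : e.idx N s (e.St N s) + 1 < Env.dN N) : g.core.P (s + 1) = g.core.P s := by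
  rw [g.P_succ s h, P_eq]
  unfold Env.newP Env.Pn
  rw [if_pos h2]

lemma P_pay (s : ℕ) (h : e.actB N s (e.St N s) = true)
    (h2 : ¬ e.idx N s (e.St N s) + 1 < Env.dN N) :
    g.core.P (s + 1) - g.core.P s = (e.delta N s (e.St N s) : ℝ) / 2 ^ s := by
  rw [g.P_succ s h, P_eq]
  unfold Env.newP Env.Pn
  rw [if_neg h2]
  push_cast
  ring

lemma delta_spec (s : ℕ) : e.delta N s (e.St N s) ≤ 2 ^ s ∧
    (∀ i < Env.dN N, e.delta N s (e.St N s) ≤ e.top (TT e N s i + Env.qN N) s (e.A s)) ∧
    (e.delta N s (e.St N s) = 2 ^ s ∨ ∃ i < Env.dN N,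
      e.delta N s (e.St N s) = e.top (TT e N s i + Env.qN N) s (e.A s)) := by
  obtain ⟨h1, h2, h3⟩ := foldr_min_le (fun t => e.top (t + Env.qN N) s (e.A s)) (2 ^ s)
    (e.St N s).1
  refine ⟨h1, ?_, ?_⟩
  · intro i hi
    exact h2 _ ((mem_stk_iff s _).2 ⟨i, hi, rfl⟩)
  · rcases h3 with h3 | ⟨t, ht, h3⟩
    · left; exact h3
    · right
      obtain ⟨i, hi, rfl⟩ := (mem_stk_iff s t).1 ht
      exact ⟨i, hi, h3⟩

lemma R0' : g.core.R 0 = 0 := by
  rw [g.R_eq]
  have : e.Rn N 0 = 0 := by
    unfold Env.Rn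
    rw [zero_add, sum_range_one]
    unfold Env.rm
    cases h : e.bU 0 with
    | none => simp
    | some z =>
      have hl := (g.b1 0 z.1 z.2 (by rw [h])).2
      have hz : z.1 = [] := List.length_eq_zero_iff.1 (by omega)
      have hne : ¬ (z.1.take (Env.wN N) = Env.pre N) := by
        rw [hz, List.take_nil]
        intro h'
        have := congrArg List.length h'
        unfold Env.pre at this
        simp at this
      simp [hne]
  rw [this]; simp

lemma T0' (i : ℕ) : TT e N 0 i = 0 := by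
  unfold TT
  rw [Env.St_zero]
  split_ifs with hi
  · simp only
    rw [List.getD_eq_getElem _ _ (by simp [Env.rep, hi])]
    simp [Env.rep]
  · rfl

lemma act_R' (s : ℕ) (h : e.actB N s (e.St N s) = true) : g.core.R s = g.core.P s := by
  rw [g.R_eq, P_eq]
  have := ((act_spec s).1 h).1.1
  unfold Env.Pn
  rw [this]

noncomputable def proc : Proc where
  toCore := g.core
  P0 := by rw [P_eq]; unfold Env.Pn; rw [Env.St_zero]; simp
  R0 := g.R0'
  T0 := T0'
  Tz := fun s => (inv s).zero
  noact := fun s h => ⟨fun i => TT_noact s h i, g.P_noact s h⟩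
  act_R := fun s h => g.act_R' s h
  act_lt := fun s h => by
    show TT e N s (Env.dN N) < s
    rw [TT_top]; exact a_lt s h
  T_top := fun s h => by
    show TT e N (s + 1) (Env.dN N) = s
    rw [TT_top, St_act s h]
  T_or := fun s i h hi => by
    show TT e N (s + 1) i = TT e N s i ∨ TT e N (s + 1) i = s
    rw [TT_act s h (inv s).len i hi]
    split_ifs
    · exact Or.inl rfl
    · exact Or.inr rfl
  T_mono_i := fun s i hi => (inv s).mono i hi
  clean := fun s i h hi hne => by
    change TT e N (s + 1) (i + 1) ≠ s at hne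
    change i < Env.dN N at hi
    rw [TT_act s h (inv s).len (i + 1) hi] at hne
    have hcond : i + 1 < Env.dN N ∧ i + 1 < e.idx N s (e.St N s) + 1 := by
      by_contra hc
      rw [if_neg hc] at hne
      exact hne rfl
    have hok := ok_of_lt (e := e) (N := N) s i hi (by omega)
    rw [okB_iff _ _ _ _ (a_lt s h).le] at hok
    obtain ⟨⟨p, hp, h1, h2, h3, h4⟩, h5⟩ := hok
    have hTd : g.core.T s g.core.d = (e.St N s).2.1 := TT_top s
    rw [hTd, g.v_eq, g.v_eq]
    refine ⟨?_, h5⟩
    intro _ y hy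
    obtain ⟨t, ht, z, ⟨v1, v2, v3, v4⟩, rfl⟩ := hp
    refine ⟨t, ht, z, v1, v2, v3, v4, ?_⟩
    rw [mem_ball_iff]
    exact ⟨h3.trans hy.1, hy.2.trans h2⟩
  pay_mono := fun s _ => by
    rw [P_eq, P_eq]
    obtain ⟨k, hk, hk2⟩ := e.Pn_even N s
    rw [hk]
    push_cast
    rw [pow_succ]
    have : (e.Pn N s : ℝ) ≤ k := by exact_mod_cast hk2
    rw [div_le_div_iff₀ (by positivity) (by positivity)]
    have h2 : (0 : ℝ) < 2 ^ s := by positivity
    nlinarith
  pay := fun s i h hi hne => by
    change i < Env.dN N at hi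
    have hn : ¬ e.idx N s (e.St N s) + 1 < Env.dN N := fun hc => hne (g.P_reset s h hc)
    have hpos : 0 < e.top (TT e N s i + Env.qN N) s (e.A s) :=
      ((act_spec s).1 h).2 _ ((mem_stk_iff s _).2 ⟨i, hi, rfl⟩)
    refine ⟨?_, ?_⟩
    · rw [g.P_pay s h hn, g.v_eq]
      exact top_seg _ _ _ _ hpos ((delta_spec s).2.1 i hi)
    · show TT e N (s + 1) i = TT e N s i
      rw [TT_act s h (inv s).len i hi.le, if_pos ⟨hi, by omega⟩]

noncomputable def play : Play where
  toProc := g.proc
  Iv := Iv e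
  Iv_mono := Iv_mono
  act_of := fun s h1 h2 h3 => by
    change g.core.R s = g.core.P s at h1
    change TT e N s (Env.dN N) < s at h2
    change ∀ i < Env.dN N, ∃ z ∈ Iv e (TT e N s i + Env.qN N) s,
      z.1 < g.core.v s ∧ g.core.v s < z.2 at h3
    show e.actB N s (e.St N s) = true
    rw [act_spec]
    rw [TT_top] at h2
    rw [g.R_eq, P_eq] at h1
    refine ⟨⟨?_, h2⟩, ?_⟩
    · have hs : (2 : ℝ) ^ s ≠ 0 := by positivity
      rw [div_left_inj' hs] at h1
      exact_mod_cast h1
    · intro t ht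
      obtain ⟨i, hi, rfl⟩ := (mem_stk_iff s t).1 ht
      rw [top_pos_iff]
      obtain ⟨z, hz1, hz2, hz3⟩ := h3 i hi
      rw [g.v_eq] at hz2 hz3
      exact ⟨z, hz1, hz2, hz3⟩
  reset := fun s i h hi hne => by
    change e.actB N s (e.St N s) = true at h
    change i + 1 < Env.dN N at hi
    change TT e N (s + 1) (i + 1) ≠ TT e N s (i + 1) at hne
    rw [TT_act s h (inv s).len (i + 1) hi.le] at hne
    have hidx : e.idx N s (e.St N s) ≤ i := by
      by_contra hc
      rw [if_pos ⟨hi, by omega⟩] at hne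
      exact hne rfl
    refine ⟨e.idx N s (e.St N s), hidx, ?_⟩
    have hno := not_ok (e := e) (N := N) s (by omega)
    rw [okB_iff _ _ _ _ (a_lt s h).le] at hno
    have hTd : g.core.T s g.core.d = (e.St N s).2.1 := TT_top s
    change ¬ ((∃ z ∈ Iv e (TT e N s (e.idx N s (e.St N s)) + Env.qN N) s,
      z.1 < g.core.v s ∧ g.core.v s < z.2 ∧ z.1 < g.core.v (g.core.T s g.core.d) ∧
        g.core.v (g.core.T s g.core.d) < z.2) ∧
      ∀ u ≤ TT e N s (e.idx N s (e.St N s)), e.deadU u s = true →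
        e.deadU u (g.core.T s g.core.d) = true)
    rw [hTd, g.v_eq, g.v_eq]
    exact hno
  payment := fun s h => by
    change e.actB N s (e.St N s) = true at h
    by_cases hc : e.idx N s (e.St N s) + 1 < Env.dN N
    · left
      refine ⟨e.idx N s (e.St N s), hc, ?_⟩
      have hno := not_ok (e := e) (N := N) s (by omega)
      rw [okB_iff _ _ _ _ (a_lt s h).le] at hno
      have hTd : g.core.T s g.core.d = (e.St N s).2.1 := TT_top s
      change ¬ ((∃ z ∈ Iv e (TT e N s (e.idx N s (e.St N s)) + Env.qN N) s,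
        z.1 < g.core.v s ∧ g.core.v s < z.2 ∧ z.1 < g.core.v (g.core.T s g.core.d) ∧
          g.core.v (g.core.T s g.core.d) < z.2) ∧
        ∀ u ≤ TT e N s (e.idx N s (e.St N s)), e.deadU u s = true →
          e.deadU u (g.core.T s g.core.d) = true)
      rw [hTd, g.v_eq, g.v_eq]
      exact hno
    · right
      have hP := g.P_pay s h hc
      rcases (delta_spec (e := e) (N := N) s).2.2 with hd | ⟨i, hi, hd⟩
      · left
        change 1 ≤ g.core.P (s + 1) - g.core.P s
        rw [hP, hd]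
        push_cast
        rw [div_self (by positivity)]
      · right
        refine ⟨i, hi, ?_⟩
        intro z hz h1 h2
        change z ∈ Iv e (TT e N s i + Env.qN N) s at hz
        change z.2 - g.core.v s ≤ g.core.P (s + 1) - g.core.P s
        change z.1 < g.core.v s at h1
        change g.core.v s < z.2 at h2
        rw [hP, hd]
        rw [g.v_eq] at h1 h2 ⊢
        exact le_top _ _ _ z hz h1 h2

end Good

end Pool.Agent.MPf476d2
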