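import Mathlib

open Finset

namespace Pool.Agent.MPf476d2

section helpers

variable {α : Type*} [Primcodable α]

theorem primrec_pow : Primrec₂ (fun a b : ℕ => a ^ b) :=
  Primrec₂.unpaired'.1 Nat.Primrec.pow

theorem primrec_sum {f : α → ℕ} {g : α → ℕ → ℕ} (hf : Primrec f) (hg : Primrec₂ g) :
    Primrec fun a => ∑ i ∈ range (f a), g a i := by
  have h : Primrec fun a => Nat.rec (motive := fun _ => ℕ) 0 (fun n IH => IH + g a n) (f a) := by
    have hh : Primrec₂ (fun (a : α) (p : ℕ × ℕ) => p.2 + g a p.1) := by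
      have h1 : Primrec (fun z : α × (ℕ × ℕ) => g z.1 z.2.1) :=
        hg.comp Primrec.fst (Primrec.fst.comp Primrec.snd)
      exact (Primrec.nat_add.comp (Primrec.snd.comp Primrec.snd) h1).to₂
    exact Primrec.nat_rec' hf (Primrec.const 0) hh
  refine h.of_eq fun a => ?_
  induction f a with
  | zero => simp
  | succ n ih => rw [sum_range_succ, ← ih]

/-- maximum of `g 0, ..., g (n-1)` (and `0`) -/
def maxR (g : ℕ → ℕ) (n : ℕ) : ℕ := Nat.rec 0 (fun k IH => max IH (g k)) n

theorem primrec_maxR {f : α → ℕ} {g : α → ℕ → ℕ} (hf : Primrec f) (hg : Primrec₂ g) :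
    Primrec fun a => maxR (g a) (f a) := by
  have hh : Primrec₂ (fun (a : α) (p : ℕ × ℕ) => max p.2 (g a p.1)) := by
    have h1 : Primrec (fun z : α × (ℕ × ℕ) => g z.1 z.2.1) :=
      hg.comp Primrec.fst (Primrec.fst.comp Primrec.snd)
    exact (Primrec.nat_max.comp (Primrec.snd.comp Primrec.snd) h1).to₂
  exact Primrec.nat_rec' hf (Primrec.const 0) hh

theorem le_maxR (g : ℕ → ℕ) (n k : ℕ) (h : k < n) : g k ≤ maxR g n := by
  induction n with
  | zero => omega
  | succ n ih =>
    show g k ≤ max (maxR g n) (g n)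
    rcases Nat.lt_or_ge k n with h' | h'
    · exact (ih h').trans (le_max_left _ _)
    · have : k = n := by omega
      subst this; exact le_max_right _ _

theorem exists_maxR (g : ℕ → ℕ) (n : ℕ) (h : 0 < maxR g n) : ∃ k < n, g k = maxR g n := by
  induction n with
  | zero => exact absurd h (lt_irrefl 0)
  | succ n ih =>
    have e : maxR g (n + 1) = max (maxR g n) (g n) := rfl
    rw [e] at h ⊢
    rcases le_total (maxR g n) (g n) with h' | h'
    · exact ⟨n, by omega, by rw [max_eq_right h']⟩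
    · rw [max_eq_left h'] at h ⊢
      obtain ⟨k, hk, hk2⟩ := ih h
      exact ⟨k, by omega, hk2⟩

theorem maxR_pos (g : ℕ → ℕ) (n : ℕ) : 0 < maxR g n ↔ ∃ k < n, 0 < g k := by
  constructor
  · intro h
    obtain ⟨k, hk, hk2⟩ := exists_maxR g n h
    exact ⟨k, hk, by rw [hk2]; exact h⟩
  · rintro ⟨k, hk, hk2⟩
    exact lt_of_lt_of_le hk2 (le_maxR g n k hk)

theorem primrec_ex_lt {f : α → ℕ} {p : α → ℕ → Prop} (hf : Primrec f) (hp : PrimrecRel p) :
    PrimrecPred fun a => ∃ x < f a, p a x := by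
  have h := (PrimrecRel.exists_mem_list (R := fun (x : ℕ) (a : α) => p a x)
    (hp.comp₂ Primrec₂.right Primrec₂.left)).comp (Primrec.list_range.comp hf) Primrec.id
  exact h.of_eq (by simp)

end helpers

end Pool.Agent.MPf476d2
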