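import Pool.Agent.MPf476d2.Enum
import Pool.Agent.MPf476d2.Prim

open Finset Encodable

namespace Pool.Agent.MPf476d2

/-- The three primitive recursive enumerations the adversary reads. -/
structure Env where
  bU : ℕ → Option (List Bool × List Bool)
  dW : ℕ → Option (List Bool)
  tV : ℕ → Option (ℕ × (ℕ × ℕ × ℕ))
  bU_prim : Primrec bU
  dW_prim : Primrec dW
  tV_prim : Primrec tV

namespace Env

variable (e : Env)

open scoped Classical in
noncomputable def deadB (x : List Bool) (s : ℕ) : Bool := decide (∃ t < s + 1, e.dW t = some x)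

noncomputable def deadU (u s : ℕ) : Bool :=
  (e.bU u).casesOn false (fun z => e.deadB z.2 s)

noncomputable def um (s u : ℕ) : ℕ :=
  (e.bU u).casesOn 0 (fun z => cond (e.deadB z.2 s) 0 (2 ^ (s - z.1.length)))

noncomputable def A (s : ℕ) : ℕ := ∑ u ∈ range (s + 1), e.um s u

def rep {α : Type*} (x : α) (n : ℕ) : List α := (List.range n).map (fun _ => x)

def tau (N : ℕ) : List Bool := (decode (α := List Bool) N).getD []

def pre (N : ℕ) : List Bool := tau N ++ (rep false N ++ [true])

def wN (N : ℕ) : ℕ := (pre N).length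

def qN (N : ℕ) : ℕ := wN N + 8

def dN (N : ℕ) : ℕ := 2 ^ (wN N + 2)

noncomputable def oppU (N u : ℕ) : Bool :=
  (e.bU u).casesOn false (fun z => decide (z.1.take (wN N) = pre N))

noncomputable def rm (N s u : ℕ) : ℕ :=
  (e.bU u).casesOn 0 (fun z => cond (decide (z.1.take (wN N) = pre N)) (2 ^ (s - z.1.length)) 0)

noncomputable def Rn (N s : ℕ) : ℕ := ∑ u ∈ range (s + 1), e.rm N s u

/-- scaled centre and radius -/
def cen (z : ℕ × (ℕ × ℕ × ℕ)) (s : ℕ) : ℕ := z.2.1 * 2 ^ (s - z.2.2.1)
def rad (z : ℕ × (ℕ × ℕ × ℕ)) (s : ℕ) : ℕ := 2 ^ (s - z.2.2.2)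

open scoped Classical in
noncomputable def topz (c s B : ℕ) (z : ℕ × (ℕ × ℕ × ℕ)) : ℕ :=
  if (z.1 = c ∧ z.2.2.1 ≤ s ∧ z.2.2.2 ≤ s) ∧ (B < cen z s + rad z s ∧ cen z s < B + rad z s)
    then cen z s + rad z s - B else 0

noncomputable def topf (c s B t : ℕ) : ℕ := (e.tV t).casesOn 0 (fun z => topz c s B z)

noncomputable def top (c s B : ℕ) : ℕ := maxR (e.topf c s B) (s + 1)

open scoped Classical in
noncomputable def okB (q t a s : ℕ) : Bool :=
  decide ((∃ i < s + 1, 0 < e.topf (t + q) s (e.A s) i ∧
      0 < e.topf (t + q) s (e.A a * 2 ^ (s - a)) i) ∧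
    ¬ ∃ u < t + 1, e.deadU u s = true ∧ e.deadU u a = false)

abbrev State := List ℕ × ℕ × ℕ

open scoped Classical in
noncomputable def actB (N s : ℕ) (st : State) : Bool :=
  decide ((e.Rn N s = st.2.2 ∧ st.2.1 < s) ∧ ∀ t ∈ st.1, 0 < e.top (t + qN N) s (e.A s))

noncomputable def idx (N s : ℕ) (st : State) : ℕ :=
  st.1.findIdx (fun t => !(e.okB (qN N) t st.2.1 s))

noncomputable def newStk (N s : ℕ) (st : State) : List ℕ :=
  st.1.take (e.idx N s st + 1) ++ rep s (dN N - (e.idx N s st + 1))

noncomputable def delta (N s : ℕ) (st : State) : ℕ :=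
  st.1.foldr (fun t acc => min (e.top (t + qN N) s (e.A s)) acc) (2 ^ s)

open scoped Classical in
noncomputable def newP (N s : ℕ) (st : State) : ℕ :=
  if e.idx N s st + 1 < dN N then st.2.2 else st.2.2 + e.delta N s st

noncomputable def stepS (N s : ℕ) (st : State) : State :=
  cond (e.actB N s st) (e.newStk N s st, s, 2 * e.newP N s st) (st.1, st.2.1, 2 * st.2.2)

noncomputable def St (N s : ℕ) : State :=
  Nat.rec (motive := fun _ => State) (rep 0 (dN N), 0, 0) (fun s IH => e.stepS N s IH) s

def val (q : List Bool) : ℕ := q.foldl (fun acc b => 2 * acc + cond b 1 0) 0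

open scoped Classical in
noncomputable def domB (N : ℕ) (q : List Bool) : Bool :=
  decide ((e.St N q.length).2.2 * 2 ^ (wN N) ≤ val q ∧
    2 * val q < (e.St N (q.length + 1)).2.2 * 2 ^ (wN N))

open scoped Classical in
noncomputable def machine (x0 : List Bool) (x : List Bool) : Part (List Bool) :=
  ((if x.findIdx id < x.length ∧
      e.domB (x.findIdx id) (x.drop (x.findIdx id + 1)) = true then some x0 else none :
        Option (List Bool)) : Part (List Bool))

/-! ### primitive recursiveness -/

theorem deadB_prim : Primrec₂ e.deadB := by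
  have h : PrimrecPred fun z : List Bool × ℕ => ∃ t < z.2 + 1, e.dW t = some z.1 := by
    refine primrec_ex_lt (Primrec.succ.comp Primrec.snd) ?_
    exact Primrec.eq.comp (e.dW_prim.comp Primrec.snd)
      (Primrec.option_some.comp (Primrec.fst.comp Primrec.fst))
  exact h.decide

theorem deadU_prim : Primrec₂ e.deadU := by
  refine Primrec.option_casesOn (e.bU_prim.comp Primrec.fst) (Primrec.const false) ?_
  exact e.deadB_prim.comp (Primrec.snd.comp Primrec.snd) (Primrec.snd.comp Primrec.fst)

theorem pow2_prim {α : Type*} [Primcodable α] {f : α → ℕ} (hf : Primrec f) :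
    Primrec fun a => 2 ^ f a := primrec_pow.comp (Primrec.const 2) hf

theorem um_prim : Primrec₂ e.um := by
  refine Primrec.option_casesOn (e.bU_prim.comp Primrec.snd) (Primrec.const 0) ?_
  refine Primrec.cond ?_ (Primrec.const 0) (pow2_prim ?_)
  · exact e.deadB_prim.comp (Primrec.snd.comp Primrec.snd) (Primrec.fst.comp Primrec.fst)
  · exact Primrec.nat_sub.comp (Primrec.fst.comp Primrec.fst)
      (Primrec.list_length.comp (Primrec.fst.comp Primrec.snd))

theorem A_prim : Primrec e.A := primrec_sum Primrec.succ e.um_prim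

theorem rep_prim {α β : Type*} [Primcodable α] [Primcodable β] {f : α → β} {g : α → ℕ}
    (hf : Primrec f) (hg : Primrec g) : Primrec fun a => rep (f a) (g a) :=
  Primrec.list_map (Primrec.list_range.comp hg) (hf.comp Primrec.fst).to₂

theorem tau_prim : Primrec tau :=
  Primrec.option_getD.comp Primrec.decode (Primrec.const [])

theorem pre_prim : Primrec pre := by
  refine Primrec.list_append.comp tau_prim (Primrec.list_append.comp ?_ (Primrec.const [true]))
  exact rep_prim (Primrec.const false) Primrec.id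

theorem wN_prim : Primrec wN := Primrec.list_length.comp pre_prim

theorem qN_prim : Primrec qN := Primrec.nat_add.comp wN_prim (Primrec.const 8)

theorem dN_prim : Primrec dN := pow2_prim (Primrec.nat_add.comp wN_prim (Primrec.const 2))

theorem rm_prim : Primrec fun z : (ℕ × ℕ) × ℕ => e.rm z.1.1 z.1.2 z.2 := by
  refine Primrec.option_casesOn (e.bU_prim.comp Primrec.snd) (Primrec.const 0) ?_
  refine Primrec.cond ?_ (pow2_prim ?_) (Primrec.const 0)
  · refine (PrimrecPred.decide (p := fun z : ((ℕ × ℕ) × ℕ) × (List Bool × List Bool) =>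
      z.2.1.take (wN z.1.1.1) = pre z.1.1.1) ?_)
    refine Primrec.eq.comp ?_ (pre_prim.comp (Primrec.fst.comp (Primrec.fst.comp Primrec.fst)))
    exact Primrec.list_take.comp (wN_prim.comp (Primrec.fst.comp (Primrec.fst.comp Primrec.fst)))
      (Primrec.fst.comp Primrec.snd)
  · exact Primrec.nat_sub.comp (Primrec.snd.comp (Primrec.fst.comp Primrec.fst))
      (Primrec.list_length.comp (Primrec.fst.comp Primrec.snd))

theorem Rn_prim : Primrec₂ e.Rn := by
  refine primrec_sum (f := fun z : ℕ × ℕ => z.2 + 1) (g := fun z u => e.rm z.1 z.2 u)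
    (Primrec.succ.comp Primrec.snd) ?_
  exact e.rm_prim

section comps
variable {α : Type*} [Primcodable α]

theorem cen_prim {f : α → ℕ × (ℕ × ℕ × ℕ)} {g : α → ℕ} (hf : Primrec f) (hg : Primrec g) :
    Primrec fun a => cen (f a) (g a) :=
  Primrec.nat_mul.comp (Primrec.fst.comp (Primrec.snd.comp hf))
    (pow2_prim (Primrec.nat_sub.comp hg (Primrec.fst.comp (Primrec.snd.comp (Primrec.snd.comp hf)))))

theorem rad_prim {f : α → ℕ × (ℕ × ℕ × ℕ)} {g : α → ℕ} (hf : Primrec f) (hg : Primrec g) :
    Primrec fun a => rad (f a) (g a) :=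
  pow2_prim (Primrec.nat_sub.comp hg (Primrec.snd.comp (Primrec.snd.comp (Primrec.snd.comp hf))))

theorem topz_prim {c s B : α → ℕ} {z : α → ℕ × (ℕ × ℕ × ℕ)} (hc : Primrec c) (hs : Primrec s)
    (hB : Primrec B) (hz : Primrec z) : Primrec fun a => topz (c a) (s a) (B a) (z a) := by
  have h1 : Primrec fun a => (z a).2.2.1 := Primrec.fst.comp (Primrec.snd.comp (Primrec.snd.comp hz))
  have h2 : Primrec fun a => (z a).2.2.2 := Primrec.snd.comp (Primrec.snd.comp (Primrec.snd.comp hz))
  have hcr : Primrec fun a => cen (z a) (s a) + rad (z a) (s a) :=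
    Primrec.nat_add.comp (cen_prim hz hs) (rad_prim hz hs)
  refine Primrec.ite ?_ (Primrec.nat_sub.comp hcr hB) (Primrec.const 0)
  refine PrimrecPred.and (PrimrecPred.and ?_ (PrimrecPred.and ?_ ?_)) (PrimrecPred.and ?_ ?_)
  · exact Primrec.eq.comp (Primrec.fst.comp hz) hc
  · exact Primrec.nat_le.comp h1 hs
  · exact Primrec.nat_le.comp h2 hs
  · exact Primrec.nat_lt.comp hB hcr
  · exact Primrec.nat_lt.comp (cen_prim hz hs) (Primrec.nat_add.comp hB (rad_prim hz hs))

theorem topf_prim {c s B t : α → ℕ} (hc : Primrec c) (hs : Primrec s)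
    (hB : Primrec B) (ht : Primrec t) : Primrec fun a => e.topf (c a) (s a) (B a) (t a) := by
  refine Primrec.option_casesOn (e.tV_prim.comp ht) (Primrec.const 0) ?_
  exact topz_prim (hc.comp Primrec.fst) (hs.comp Primrec.fst) (hB.comp Primrec.fst) Primrec.snd

theorem top_prim {c s B : α → ℕ} (hc : Primrec c) (hs : Primrec s)
    (hB : Primrec B) : Primrec fun a => e.top (c a) (s a) (B a) := by
  refine primrec_maxR (f := fun a => s a + 1) (g := fun a t => e.topf (c a) (s a) (B a) t)
    (Primrec.succ.comp hs) ?_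
  exact e.topf_prim (hc.comp Primrec.fst) (hs.comp Primrec.fst) (hB.comp Primrec.fst) Primrec.snd

theorem okB_prim {q t a s : α → ℕ} (hq : Primrec q) (ht : Primrec t) (ha : Primrec a)
    (hs : Primrec s) : Primrec fun x => e.okB (q x) (t x) (a x) (s x) := by
  have hAs : Primrec fun x => e.A (s x) := e.A_prim.comp hs
  have hBa : Primrec fun x => e.A (a x) * 2 ^ (s x - a x) :=
    Primrec.nat_mul.comp (e.A_prim.comp ha) (pow2_prim (Primrec.nat_sub.comp hs ha))
  have htq : Primrec fun x => t x + q x := Primrec.nat_add.comp ht hq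
  have h1 : PrimrecPred fun x => ∃ i < s x + 1, 0 < e.topf (t x + q x) (s x) (e.A (s x)) i ∧
      0 < e.topf (t x + q x) (s x) (e.A (a x) * 2 ^ (s x - a x)) i := by
    refine primrec_ex_lt (Primrec.succ.comp hs) ?_
    refine PrimrecPred.and ?_ ?_
    · refine Primrec.nat_lt.comp (Primrec.const 0) ?_
      exact e.topf_prim (htq.comp Primrec.fst) (hs.comp Primrec.fst) (hAs.comp Primrec.fst)
        Primrec.snd
    · refine Primrec.nat_lt.comp (Primrec.const 0) ?_
      exact e.topf_prim (htq.comp Primrec.fst) (hs.comp Primrec.fst) (hBa.comp Primrec.fst)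
        Primrec.snd
  have h2 : PrimrecPred fun x => ∃ u < t x + 1,
      e.deadU u (s x) = true ∧ e.deadU u (a x) = false := by
    refine primrec_ex_lt (Primrec.succ.comp ht) ?_
    refine PrimrecPred.and ?_ ?_
    · exact Primrec.eq.comp (e.deadU_prim.comp Primrec.snd (hs.comp Primrec.fst))
        (Primrec.const true)
    · exact Primrec.eq.comp (e.deadU_prim.comp Primrec.snd (ha.comp Primrec.fst))
        (Primrec.const false)
  exact (h1.and h2.not).decide

end comps

/-- the type of arguments `((N, s), st)` -/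
abbrev Arg := (ℕ × ℕ) × State

section args

theorem argN : Primrec fun z : Arg => z.1.1 := Primrec.fst.comp Primrec.fst
theorem argS : Primrec fun z : Arg => z.1.2 := Primrec.snd.comp Primrec.fst
theorem argStk : Primrec fun z : Arg => z.2.1 := Primrec.fst.comp Primrec.snd
theorem argA : Primrec fun z : Arg => z.2.2.1 := Primrec.fst.comp (Primrec.snd.comp Primrec.snd)
theorem argP : Primrec fun z : Arg => z.2.2.2 := Primrec.snd.comp (Primrec.snd.comp Primrec.snd)

theorem topArg : Primrec₂ fun (z : Arg) (t : ℕ) => e.top (t + qN z.1.1) z.1.2 (e.A z.1.2) := by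
  refine e.top_prim (Primrec.nat_add.comp Primrec.snd (qN_prim.comp (argN.comp Primrec.fst)))
    (argS.comp Primrec.fst) (e.A_prim.comp (argS.comp Primrec.fst))

theorem actB_prim : Primrec fun z : Arg => e.actB z.1.1 z.1.2 z.2 := by
  have h1 : PrimrecPred fun z : Arg => e.Rn z.1.1 z.1.2 = z.2.2.2 :=
    Primrec.eq.comp (e.Rn_prim.comp argN argS) argP
  have h2 : PrimrecPred fun z : Arg => z.2.2.1 < z.1.2 := Primrec.nat_lt.comp argA argS
  have h3 : PrimrecPred fun z : Arg =>
      ∀ t ∈ z.2.1, 0 < e.top (t + qN z.1.1) z.1.2 (e.A z.1.2) := by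
    have := (PrimrecRel.forall_mem_list
      (R := fun (t : ℕ) (z : Arg) => 0 < e.top (t + qN z.1.1) z.1.2 (e.A z.1.2)) ?_).comp
      argStk Primrec.id
    · exact this
    · exact Primrec.nat_lt.comp (Primrec.const 0) (e.topArg.comp Primrec.snd Primrec.fst)
  exact ((h1.and h2).and h3).decide

theorem idx_prim : Primrec fun z : Arg => e.idx z.1.1 z.1.2 z.2 := by
  refine Primrec.list_findIdx argStk ?_
  refine Primrec.not.comp ?_
  exact e.okB_prim (qN_prim.comp (argN.comp Primrec.fst)) Primrec.snd (argA.comp Primrec.fst)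
    (argS.comp Primrec.fst)

theorem newStk_prim : Primrec fun z : Arg => e.newStk z.1.1 z.1.2 z.2 := by
  have hi : Primrec fun z : Arg => e.idx z.1.1 z.1.2 z.2 + 1 := Primrec.succ.comp e.idx_prim
  refine Primrec.list_append.comp (Primrec.list_take.comp hi argStk) ?_
  exact rep_prim argS (Primrec.nat_sub.comp (dN_prim.comp argN) hi)

theorem delta_prim : Primrec fun z : Arg => e.delta z.1.1 z.1.2 z.2 := by
  refine Primrec.list_foldr (h := fun (z : Arg) (p : ℕ × ℕ) =>
    min (e.top (p.1 + qN z.1.1) z.1.2 (e.A z.1.2)) p.2) argStk (pow2_prim argS) ?_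
  exact Primrec.nat_min.comp (e.topArg.comp Primrec.fst (Primrec.fst.comp Primrec.snd))
    (Primrec.snd.comp Primrec.snd)

theorem newP_prim : Primrec fun z : Arg => e.newP z.1.1 z.1.2 z.2 := by
  refine Primrec.ite ?_ argP (Primrec.nat_add.comp argP e.delta_prim)
  exact Primrec.nat_lt.comp (Primrec.succ.comp e.idx_prim) (dN_prim.comp argN)

theorem stepS_prim : Primrec fun z : Arg => e.stepS z.1.1 z.1.2 z.2 := by
  refine Primrec.cond e.actB_prim ?_ ?_
  · exact Primrec.pair e.newStk_prim (Primrec.pair argS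
      (Primrec.nat_mul.comp (Primrec.const 2) e.newP_prim))
  · exact Primrec.pair argStk (Primrec.pair argA
      (Primrec.nat_mul.comp (Primrec.const 2) argP))

end args

theorem St_prim : Primrec₂ e.St := by
  have hh : Primrec₂ (fun (N : ℕ) (p : ℕ × State) => e.stepS N p.1 p.2) := by
    have h1 : Primrec fun z : ℕ × (ℕ × State) => (((z.1, z.2.1), z.2.2) : Arg) :=
      Primrec.pair (Primrec.pair Primrec.fst (Primrec.fst.comp Primrec.snd))
        (Primrec.snd.comp Primrec.snd)
    exact (e.stepS_prim.comp h1).to₂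
  have h0 : Primrec fun N : ℕ => ((rep 0 (dN N), 0, 0) : State) :=
    Primrec.pair (rep_prim (Primrec.const 0) dN_prim) (Primrec.const (0, 0))
  exact Primrec.nat_rec h0 hh

theorem val_prim : Primrec val := by
  refine Primrec.list_foldl (h := fun (_ : List Bool) (p : ℕ × Bool) => 2 * p.1 + cond p.2 1 0)
    Primrec.id (Primrec.const 0) ?_
  have h1 : Primrec fun z : List Bool × (ℕ × Bool) => z.2.1 := Primrec.fst.comp Primrec.snd
  have h2 : Primrec fun z : List Bool × (ℕ × Bool) => z.2.2 := Primrec.snd.comp Primrec.snd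
  exact Primrec.nat_add.comp (Primrec.nat_mul.comp (Primrec.const 2) h1)
    (Primrec.cond h2 (Primrec.const 1) (Primrec.const 0))

theorem domB_prim : Primrec₂ e.domB := by
  have hl : Primrec fun z : ℕ × List Bool => z.2.length := Primrec.list_length.comp Primrec.snd
  have hP : Primrec fun z : ℕ × List Bool => (e.St z.1 z.2.length).2.2 :=
    Primrec.snd.comp (Primrec.snd.comp (e.St_prim.comp Primrec.fst hl))
  have hP' : Primrec fun z : ℕ × List Bool => (e.St z.1 (z.2.length + 1)).2.2 :=
    Primrec.snd.comp (Primrec.snd.comp (e.St_prim.comp Primrec.fst (Primrec.succ.comp hl)))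
  have hw : Primrec fun z : ℕ × List Bool => 2 ^ wN z.1 := pow2_prim (wN_prim.comp Primrec.fst)
  have hv : Primrec fun z : ℕ × List Bool => val z.2 := val_prim.comp Primrec.snd
  have h1 := Primrec.nat_le.comp (Primrec.nat_mul.comp hP hw) hv
  have h2 := Primrec.nat_lt.comp (Primrec.nat_mul.comp (Primrec.const 2) hv)
    (Primrec.nat_mul.comp hP' hw)
  exact (h1.and h2).decide

theorem machine_partrec (x0 : List Bool) : Partrec (e.machine x0) := by
  have hi : Primrec fun x : List Bool => x.findIdx id :=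
    Primrec.list_findIdx Primrec.id Primrec.snd
  have hd : Primrec fun x : List Bool => x.drop (x.findIdx id + 1) :=
    Primrec.list_drop.comp (Primrec.succ.comp hi) Primrec.id
  have hp : Primrec fun x : List Bool => (if x.findIdx id < x.length ∧
      e.domB (x.findIdx id) (x.drop (x.findIdx id + 1)) = true then some x0 else none :
        Option (List Bool)) := by
    classical
    refine Primrec.ite (PrimrecPred.and ?_ ?_) (Primrec.const _) (Primrec.const _)
    · exact Primrec.nat_lt.comp hi Primrec.list_length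
    · exact Primrec.eq.comp (e.domB_prim.comp hi hd) (Primrec.const true)
  have := hp.to_comp.ofOption
  refine this.of_eq fun x => ?_
  unfold machine
  congr 1

end Env

end Pool.Agent.MPf476d2
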