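import Pool.Agent.MPf476d2.Build

open MeasureTheory Finset Encodable

namespace Pool.Agent.MPf476d2

namespace Good

noncomputable def lft (z : ℕ × (ℕ × ℕ × ℕ)) : ℝ :=
  (z.2.1 : ℝ) / 2 ^ z.2.2.1 - (1 / 2 : ℝ) ^ z.2.2.2

noncomputable def rgt (z : ℕ × (ℕ × ℕ × ℕ)) : ℝ :=
  (z.2.1 : ℝ) / 2 ^ z.2.2.1 + (1 / 2 : ℝ) ^ z.2.2.2

lemma mem_ball_iff (z : ℕ × (ℕ × ℕ × ℕ)) (y : ℝ) : y ∈ ball z.2 ↔ lft z < y ∧ y < rgt z := by
  unfold ball lft rgt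
  rw [Metric.mem_ball, Real.dist_eq, abs_lt]
  constructor
  · rintro ⟨h1, h2⟩; constructor <;> linarith
  · rintro ⟨h1, h2⟩; constructor <;> linarith

lemma cen_real (z : ℕ × (ℕ × ℕ × ℕ)) (s : ℕ) (h : z.2.2.1 ≤ s) :
    (Env.cen z s : ℝ) = (z.2.1 : ℝ) / 2 ^ z.2.2.1 * 2 ^ s := by
  unfold Env.cen
  push_cast
  rw [pow_sub₀ (2 : ℝ) (by norm_num) h]
  field_simp

lemma rad_real (z : ℕ × (ℕ × ℕ × ℕ)) (s : ℕ) (h : z.2.2.2 ≤ s) :
    (Env.rad z s : ℝ) = (1 / 2 : ℝ) ^ z.2.2.2 * 2 ^ s := by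
  unfold Env.rad
  push_cast
  rw [pow_sub₀ (2 : ℝ) (by norm_num) h, one_div, inv_pow]
  ring

variable {e : Env} {N : ℕ}

def Valid (e : Env) (c s t : ℕ) (z : ℕ × (ℕ × ℕ × ℕ)) : Prop :=
  e.tV t = some z ∧ z.1 = c ∧ z.2.2.1 ≤ s ∧ z.2.2.2 ≤ s

lemma topf_spec (c s B t : ℕ) (h : 0 < e.topf c s B t) :
    ∃ z, Valid e c s t z ∧ lft z < (B : ℝ) / 2 ^ s ∧ (B : ℝ) / 2 ^ s < rgt z ∧
      (e.topf c s B t : ℝ) / 2 ^ s = rgt z - (B : ℝ) / 2 ^ s := by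
  unfold Env.topf at h ⊢
  cases hz : e.tV t with
  | none => rw [hz] at h; simp at h
  | some z =>
    rw [hz] at h
    simp only at h ⊢
    unfold Env.topz at h ⊢
    split_ifs at h with hc
    · rw [if_pos hc]
      obtain ⟨⟨h1, h2, h3⟩, h4, h5⟩ := hc
      have hs : (0 : ℝ) < 2 ^ s := by positivity
      have r4 : (B : ℝ) < Env.cen z s + Env.rad z s := by exact_mod_cast h4
      have r5 : (Env.cen z s : ℝ) < B + Env.rad z s := by exact_mod_cast h5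
      refine ⟨z, ⟨hz, h1, h2, h3⟩, ?_, ?_, ?_⟩
      · rw [lt_div_iff₀ hs]
        unfold lft
        rw [sub_mul, ← cen_real z s h2, ← rad_real z s h3]
        linarith
      · rw [div_lt_iff₀ hs]
        unfold rgt
        rw [add_mul, ← cen_real z s h2, ← rad_real z s h3]
        linarith
      · rw [Nat.cast_sub h4.le, sub_div]
        congr 1
        rw [div_eq_iff hs.ne']
        unfold rgt
        rw [add_mul, ← cen_real z s h2, ← rad_real z s h3]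
        push_cast
        ring
    · exact absurd h (lt_irrefl 0)

lemma topf_of (c s B t : ℕ) (z : ℕ × (ℕ × ℕ × ℕ)) (hv : Valid e c s t z)
    (h1 : lft z < (B : ℝ) / 2 ^ s) (h2 : (B : ℝ) / 2 ^ s < rgt z) :
    0 < e.topf c s B t ∧ (e.topf c s B t : ℝ) / 2 ^ s = rgt z - (B : ℝ) / 2 ^ s := by
  have hs : (0 : ℝ) < 2 ^ s := by positivity
  obtain ⟨v1, v2, v3, v4⟩ := hv
  have h4 : B < Env.cen z s + Env.rad z s := by
    rw [div_lt_iff₀ hs] at h2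
    unfold rgt at h2
    rw [add_mul, ← cen_real z s v3, ← rad_real z s v4] at h2
    exact_mod_cast h2
  have h5 : Env.cen z s < B + Env.rad z s := by
    rw [lt_div_iff₀ hs] at h1
    unfold lft at h1
    rw [sub_mul, ← cen_real z s v3, ← rad_real z s v4] at h1
    have : (Env.cen z s : ℝ) < B + Env.rad z s := by linarith
    exact_mod_cast this
  have hval : e.topf c s B t = Env.cen z s + Env.rad z s - B := by
    unfold Env.topf
    rw [v1]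
    simp only
    unfold Env.topz
    rw [if_pos ⟨⟨v2, v3, v4⟩, h4, h5⟩]
  have hpos : 0 < e.topf c s B t := by rw [hval]; omega
  refine ⟨hpos, ?_⟩
  obtain ⟨z', hv', -, -, h⟩ := topf_spec c s B t hpos
  have hz' := hv'.1
  rw [v1] at hz'
  cases hz'
  exact h

def Iv (e : Env) (c s : ℕ) : Set (ℝ × ℝ) :=
  {p | ∃ t < s + 1, ∃ z, Valid e c s t z ∧ p = (lft z, rgt z)}

lemma Iv_mono (c s t : ℕ) (h : s ≤ t) : Iv e c s ⊆ Iv e c t := by
  rintro p ⟨k, hk, z, ⟨h1, h2, h3, h4⟩, h5⟩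
  exact ⟨k, by omega, z, ⟨h1, h2, by omega, by omega⟩, h5⟩

lemma top_pos_iff (c s B : ℕ) : 0 < e.top c s B ↔
    ∃ p ∈ Iv e c s, p.1 < (B : ℝ) / 2 ^ s ∧ (B : ℝ) / 2 ^ s < p.2 := by
  unfold Env.top
  rw [maxR_pos]
  constructor
  · rintro ⟨t, ht, h⟩
    obtain ⟨z, hv, h1, h2, -⟩ := topf_spec c s B t h
    exact ⟨(lft z, rgt z), ⟨t, ht, z, hv, rfl⟩, h1, h2⟩
  · rintro ⟨p, ⟨t, ht, z, hv, rfl⟩, h1, h2⟩
    exact ⟨t, ht, (topf_of c s B t z hv h1 h2).1⟩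

lemma le_top (c s B : ℕ) (p : ℝ × ℝ) (hp : p ∈ Iv e c s) (h1 : p.1 < (B : ℝ) / 2 ^ s)
    (h2 : (B : ℝ) / 2 ^ s < p.2) : p.2 - (B : ℝ) / 2 ^ s ≤ (e.top c s B : ℝ) / 2 ^ s := by
  obtain ⟨t, ht, z, hv, rfl⟩ := hp
  obtain ⟨-, h⟩ := topf_of c s B t z hv h1 h2
  simp only at h1 h2 ⊢
  rw [← h]
  have : e.topf c s B t ≤ e.top c s B := le_maxR _ _ _ ht
  gcongr

/-- the segment above the value is inside the open set -/
lemma top_seg (c s B D : ℕ) (h0 : 0 < e.top c s B) (hD : D ≤ e.top c s B) :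
    Set.Ioo ((B : ℝ) / 2 ^ s) ((B : ℝ) / 2 ^ s + (D : ℝ) / 2 ^ s) ⊆ VS e c s := by
  obtain ⟨t, ht, hmax⟩ := exists_maxR _ _ h0
  have h0' : 0 < e.topf c s B t := by rw [hmax]; exact h0
  obtain ⟨z, ⟨v1, v2, v3, v4⟩, h1, h2, h3⟩ := topf_spec c s B t h0'
  rintro y ⟨hy1, hy2⟩
  refine ⟨t, ht, z, v1, v2, v3, v4, ?_⟩
  rw [mem_ball_iff]
  refine ⟨by linarith, ?_⟩
  have : (D : ℝ) / 2 ^ s ≤ (e.topf c s B t : ℝ) / 2 ^ s := by
    rw [hmax]
    have : (D : ℝ) ≤ (e.top c s B : ℝ) := by exact_mod_cast hD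
    exact div_le_div_of_nonneg_right this (by positivity)
  linarith

/-- meaning of `okB` -/
lemma okB_iff (q t a s : ℕ) (ha : a ≤ s) : e.okB q t a s = true ↔
    (∃ p ∈ Iv e (t + q) s, p.1 < (e.A s : ℝ) / 2 ^ s ∧ (e.A s : ℝ) / 2 ^ s < p.2 ∧
      p.1 < (e.A a : ℝ) / 2 ^ a ∧ (e.A a : ℝ) / 2 ^ a < p.2) ∧
    ∀ u ≤ t, e.deadU u s = true → e.deadU u a = true := by
  have hscale : (((e.A a * 2 ^ (s - a) : ℕ) : ℝ)) / 2 ^ s = (e.A a : ℝ) / 2 ^ a := by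
    push_cast
    rw [pow_sub₀ (2 : ℝ) (by norm_num) ha]
    field_simp
  unfold Env.okB
  rw [decide_eq_true_eq]
  apply and_congr
  · constructor
    · rintro ⟨i, hi, h1, h2⟩
      obtain ⟨z, hv, a1, a2, -⟩ := topf_spec _ _ _ _ h1
      obtain ⟨z', hv', b1, b2, -⟩ := topf_spec _ _ _ _ h2
      have hzz : z' = z := by
        have := hv'.1
        rw [hv.1] at this
        cases this; rfl
      subst hzz
      rw [hscale] at b1 b2
      exact ⟨(lft z', rgt z'), ⟨i, hi, z', hv, rfl⟩, a1, a2, b1, b2⟩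
    · rintro ⟨p, ⟨i, hi, z, hv, rfl⟩, a1, a2, b1, b2⟩
      refine ⟨i, hi, (topf_of _ _ _ _ z hv a1 a2).1, ?_⟩
      refine (topf_of _ _ _ _ z hv ?_ ?_).1
      · rw [hscale]; exact b1
      · rw [hscale]; exact b2
  · constructor
    · intro h u hu hd
      by_contra hcon
      exact h ⟨u, by omega, hd, by simpa using hcon⟩
    · rintro h ⟨u, hu, h1, h2⟩
      have := h u (by omega) h1
      rw [this] at h2
      exact absurd h2 (by decide)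

end Good

end Pool.Agent.MPf476d2
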