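import Pool.Agent.MPf476d2.Sem

open MeasureTheory Finset Encodable

namespace Pool.Agent.MPf476d2

namespace Good

variable {e : Env} {N : ℕ}

lemma dN_pos (N : ℕ) : 0 < Env.dN N := by unfold Env.dN; positivity

lemma TT_top (s : ℕ) : TT e N s (Env.dN N) = (e.St N s).2.1 := by
  unfold TT; simp

lemma TT_lt (s i : ℕ) (h : i < Env.dN N) : TT e N s i = (e.St N s).1.getD i 0 := by
  unfold TT; simp [h]

lemma St_act (s : ℕ) (h : e.actB N s (e.St N s) = true) :
    e.St N (s + 1) = (e.newStk N s (e.St N s), s, 2 * e.newP N s (e.St N s)) := by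
  rw [Env.St_succ]; unfold Env.stepS; rw [h]; rfl

lemma St_noact (s : ℕ) (h : ¬ e.actB N s (e.St N s) = true) :
    e.St N (s + 1) = ((e.St N s).1, (e.St N s).2.1, 2 * (e.St N s).2.2) := by
  rw [Env.St_succ]; unfold Env.stepS
  have : e.actB N s (e.St N s) = false := by simpa using h
  rw [this]; rfl

lemma TT_noact (s : ℕ) (h : ¬ e.actB N s (e.St N s) = true) (i : ℕ) :
    TT e N (s + 1) i = TT e N s i := by
  unfold TT; rw [St_noact s h]

lemma newStk_length (s : ℕ) (st : Env.State) (h : st.1.length = Env.dN N) :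
    (e.newStk N s st).length = Env.dN N := by
  unfold Env.newStk Env.rep
  simp only [List.length_append, List.length_take, List.length_map, List.length_range, h]
  omega

lemma newStk_getD (s : ℕ) (st : Env.State) (h : st.1.length = Env.dN N) (i : ℕ)
    (hi : i < Env.dN N) :
    (e.newStk N s st).getD i 0 = if i < e.idx N s st + 1 then st.1.getD i 0 else s := by
  have hl := newStk_length (e := e) s st h
  rw [List.getD_eq_getElem _ _ (by rw [hl]; exact hi)]
  unfold Env.newStk
  split_ifs with hc
  · rw [List.getElem_append_left (by rw [List.length_take, h]; omega), List.getElem_take,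
      List.getD_eq_getElem _ _ (by rw [h]; exact hi)]
  · rw [List.getElem_append_right (by rw [List.length_take, h]; omega)]
    simp [Env.rep]

lemma act_spec (s : ℕ) : e.actB N s (e.St N s) = true ↔
    (e.Rn N s = (e.St N s).2.2 ∧ (e.St N s).2.1 < s) ∧
      ∀ t ∈ (e.St N s).1, 0 < e.top (t + Env.qN N) s (e.A s) := by
  unfold Env.actB
  rw [decide_eq_true_eq]

structure Inv (e : Env) (N s : ℕ) : Prop where
  len : (e.St N s).1.length = Env.dN N
  mono : ∀ i, i < Env.dN N → TT e N s i ≤ TT e N s (i + 1)
  top : TT e N s (Env.dN N) ≤ s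
  zero : TT e N s 0 = 0

lemma Inv.le_top {s : ℕ} (h : Inv e N s) (i : ℕ) (hi : i ≤ Env.dN N) :
    TT e N s i ≤ TT e N s (Env.dN N) := by
  obtain ⟨k, hk⟩ := Nat.exists_eq_add_of_le hi
  induction k generalizing i with
  | zero => have : i = Env.dN N := by omega
            rw [this]
  | succ k ih => exact (h.mono i (by omega)).trans (ih (i + 1) (by omega) (by omega))

/-- how the stack changes at an act -/
lemma TT_act (s : ℕ) (h : e.actB N s (e.St N s) = true) (hl : (e.St N s).1.length = Env.dN N)
    (i : ℕ) (hi : i ≤ Env.dN N) : TT e N (s + 1) i =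
      if i < Env.dN N ∧ i < e.idx N s (e.St N s) + 1 then TT e N s i else s := by
  rcases Nat.lt_or_ge i (Env.dN N) with h1 | h1
  · rw [TT_lt _ _ h1, TT_lt _ _ h1, St_act s h]
    simp only
    rw [newStk_getD s _ hl i h1]
    simp [h1]
  · have : i = Env.dN N := by omega
    subst this
    rw [TT_top, St_act s h]
    simp

lemma inv (s : ℕ) : Inv e N s := by
  induction s with
  | zero =>
    have h0 : ∀ i, TT e N 0 i = 0 := by
      intro i
      unfold TT
      rw [Env.St_zero]
      split_ifs with hi
      · simp only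
        rw [List.getD_eq_getElem _ _ (by simp [Env.rep, hi])]
        simp [Env.rep]
      · rfl
    refine ⟨?_, ?_, ?_, ?_⟩
    · rw [Env.St_zero]; simp [Env.rep]
    · intro i _; rw [h0, h0]
    · rw [h0]
    · rw [h0]
  | succ s ih =>
    by_cases h : e.actB N s (e.St N s) = true
    · have hT := TT_act s h ih.len
      have hlt : TT e N s (Env.dN N) < s := by
        rw [TT_top]; exact ((act_spec s).1 h).1.2
      refine ⟨?_, ?_, ?_, ?_⟩
      · rw [St_act s h]; exact newStk_length s _ ih.len
      · intro i hi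
        rw [hT i hi.le, hT (i + 1) (by omega)]
        have h1 := ih.mono i hi
        have h2 := ih.le_top i hi.le
        split_ifs <;> omega
      · rw [hT _ le_rfl]; simp
      · rw [hT 0 (by omega)]
        rw [if_pos ⟨dN_pos N, by omega⟩]
        exact ih.zero
    · refine ⟨?_, ?_, ?_, ?_⟩
      · rw [St_noact s h]; exact ih.len
      · intro i hi; rw [TT_noact s h, TT_noact s h]; exact ih.mono i hi
      · rw [TT_noact s h]; have := ih.top; omega
      · rw [TT_noact s h]; exact ih.zero

/-- entries before the first interrupted level are not interrupted -/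
lemma ok_of_lt (s i : ℕ) (hi : i < Env.dN N) (h : i < e.idx N s (e.St N s)) :
    e.okB (Env.qN N) (TT e N s i) (e.St N s).2.1 s = true := by
  have hlen : i < (e.St N s).1.length := by rw [(inv s).len]; exact hi
  unfold Env.idx at h
  have := List.not_of_lt_findIdx h
  rw [TT_lt _ _ hi, List.getD_eq_getElem _ _ hlen]
  simpa using this

lemma findIdx_bad (f : ℕ → Bool) (l : List ℕ) (h : l.findIdx (fun t => !(f t)) < l.length) :
    f (l.getD (l.findIdx (fun t => !(f t))) 0) = false := by
  have := List.findIdx_getElem (p := fun t => !(f t)) (xs := l) (w := h)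
  rw [List.getD_eq_getElem _ _ h]
  simpa using this

lemma not_ok (s : ℕ) (h : e.idx N s (e.St N s) < Env.dN N) :
    ¬ e.okB (Env.qN N) (TT e N s (e.idx N s (e.St N s))) (e.St N s).2.1 s = true := by
  have hlen : e.idx N s (e.St N s) < (e.St N s).1.length := by rw [(inv s).len]; exact h
  have := findIdx_bad (fun t => e.okB (Env.qN N) t (e.St N s).2.1 s) (e.St N s).1 hlen
  rw [TT_lt _ _ h]
  unfold Env.idx
  rw [this]
  simp

lemma mem_stk_iff (s t : ℕ) : t ∈ (e.St N s).1 ↔ ∃ i < Env.dN N, TT e N s i = t := by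
  rw [List.mem_iff_getElem]
  constructor
  · rintro ⟨i, hi, rfl⟩
    have hi' : i < Env.dN N := by rw [← (inv (e := e) s).len]; exact hi
    exact ⟨i, hi', by rw [TT_lt _ _ hi', List.getD_eq_getElem _ _ hi]⟩
  · rintro ⟨i, hi, rfl⟩
    have hlen : i < (e.St N s).1.length := by rw [(inv s).len]; exact hi
    exact ⟨i, hlen, by rw [TT_lt _ _ hi, List.getD_eq_getElem _ _ hlen]⟩

lemma foldr_min_le (f : ℕ → ℕ) (b : ℕ) (l : List ℕ) :
    l.foldr (fun t acc => min (f t) acc) b ≤ b ∧
    (∀ t ∈ l, l.foldr (fun t acc => min (f t) acc) b ≤ f t) ∧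
    (l.foldr (fun t acc => min (f t) acc) b = b ∨
      ∃ t ∈ l, l.foldr (fun t acc => min (f t) acc) b = f t) := by
  induction l with
  | nil => simp
  | cons a l ih =>
    obtain ⟨h1, h2, h3⟩ := ih
    simp only [List.foldr_cons]
    refine ⟨(min_le_right _ _).trans h1, ?_, ?_⟩
    · intro t ht
      rcases List.mem_cons.1 ht with rfl | ht
      · exact min_le_left _ _
      · exact (min_le_right _ _).trans (h2 t ht)
    · rcases le_total (f a) (l.foldr (fun t acc => min (f t) acc) b) with h | h
      · right; exact ⟨a, by simp, min_eq_left h⟩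
      · rw [min_eq_right h]
        rcases h3 with h3 | ⟨t, ht, h3⟩
        · left; exact h3
        · right; exact ⟨t, by simp [ht], h3⟩

end Good

end Pool.Agent.MPf476d2
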